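import Pool.Agent.Helper99.MLT.CountLT
import Pool.Agent.Helper97.HG2.CountN

/-!
# Project PD (MP_e66f84_ag), block P1: the count with labels, with special components, part 1
-/

set_option autoImplicit false
set_option maxHeartbeats 1000000

namespace Pool.Agent.PD37

open Filter Topology
open Pool.Agent.HG (BadT Special)
open Pool.Agent.MLT (WJbt TBRbt)
open Pool.Agent.MP (SysR TAR)
open Pool.Agent.Helper97.HG2 (Kof lt_Kof Kof_le DK DK_V_pos DK_V_neg DK_V_sub DK_I_pos DK_I_neg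
  badT_DK le_sc_of_exp)
open Pool.Agent.Helper99.HG (CD pf Nm Bad TA pr Js sc sc_lt sc_le sc_pos mem_pf zz log_ge_one
  zz_mono zz_top zz_zero zz_two log_zz_le le_log_zz ll_le le_ll ll_diff ll_diff' irr_card)
open Pool.Agent.Helper99.ML (SysW mem_pr nm_le_Nm Nm_pos BTb BTc MertK)
open Pool.Agent.TW37 (EE EE_ge_one)
open Pool.Agent.MLT99 (SA perKt cover_cfg TBKt)

variable {k : ℕ} {G : Type} {β : ℝ}

section BT

variable {D : CD k G} {j₀ : Fin k} {os : D.P → D.O} {z : ℕ → ℕ} {N : ℕ} {K : Fin k → ℕ}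

theorem BTc_DKb {Ok : Finset D.P → Prop} (hOk : ∀ m c, m ⊆ c → Ok c → Ok m) {ε C : ℝ} {A : ℕ}
    (hS : SysW D.P D.nm) (hBT : BTc D β Ok ε C A) : BTc (DK D j₀ os z N K) β Ok ε C A := by
  classical
  intro j m hm hOm τ hτ t h h2 hmA T hT
  let m' : Finset D.P := Finset.filter (fun p : D.P => ¬ Js K (sc z N (D.nm p)) = {j₀}) m
  have hm'm : ∀ p : D.P, p ∈ m' → p ∈ m := fun p hp => (Finset.mem_filter.mp hp).1
  have hm'n : ∀ p : D.P, p ∈ m' → ¬ Js K (sc z N (D.nm p)) = {j₀} := fun p hp => (Finset.mem_filter.mp hp).2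
  have hm's : m' ⊆ m := fun p hp => hm'm p hp
  have h1 := hBT j m' (fun p hp => hm p (hm'm p hp)) (hOk _ _ hm's hOm) τ
    (fun p hp => DK_V_sub p _ (hτ p (hm'm p hp))) t h h2
    ((Nat.pow_le_pow_left (Nat.le_of_dvd (Nm_pos hS m) (Finset.prod_dvd_prod_of_subset _ _ _ (Finset.filter_subset _ _))) A).trans hmA)
    T (by
      intro Q hQ
      obtain ⟨g1, g2, ⟨m₀, g7, g8, g9⟩, g3, o, g4, g5, g6⟩ := hT Q hQ
      refine ⟨g1, fun h => g2 (hm'm Q h), ⟨m₀, g7, g8, fun p hp => g9 (hm'm p hp)⟩, g3, o,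
        DK_V_sub Q o g4, g5, fun p hp i hi => g6 p (hm'm p hp) i ?_⟩
      have e := DK_I_neg (os := os) (hm'n p hp) (τ p) j
      exact e.symm ▸ hi)
  refine h1.trans (le_of_eq ?_)
  congr 2
  change ∏ p ∈ Finset.filter (fun p : D.P => ¬ Js K (sc z N (D.nm p)) = {j₀}) m, _ = _
  rw [Finset.prod_filter]
  refine Finset.prod_congr rfl fun p _ => ?_
  by_cases hp : Js K (sc z N (D.nm p)) = {j₀}
  · rw [if_neg (not_not_intro hp), DK_I_pos hp]
    simp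
  · rw [if_pos hp, DK_I_neg hp]

end BT

/-! ## The weights -/

open Classical in
/-- the weight of a prime of scale `κ` -/
noncomputable def WK (β : ℝ) (D : CD k G) (K : Fin k → ℕ) (κ : ℕ) (t : D.P → Fin k → D.ι → G)
    (p : D.P) : ℝ :=
  ∑ o ∈ (D.V p).filter (fun o => D.cmp o ∈ Js K κ ∧ ∀ j ∉ Js K κ, ∀ i ∈ D.I p o j,
    t p j i = D.g p o i), β ^ (∑ j ∈ Js K (κ + 2), (D.I p o j).card)

theorem WK_nonneg (hβ : 0 < β) (D : CD k G) (K : Fin k → ℕ) (κ : ℕ) (t : D.P → Fin k → D.ι → G)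
    (p : D.P) : 0 ≤ WK β D K κ t p := Finset.sum_nonneg fun o _ => by positivity

open Classical in
theorem WK_card (hβ : 0 < β) (hβ1 : β ≤ 1) {D : CD k G} {K : Fin k → ℕ} {κ n : ℕ}
    {t : D.P → Fin k → D.ι → G} {p : D.P} (h : (D.V p).card ≤ n) : WK β D K κ t p ≤ n := by
  unfold WK
  calc _ ≤ ∑ o ∈ (D.V p).filter (fun o => D.cmp o ∈ Js K κ ∧ ∀ j ∉ Js K κ, ∀ i ∈ D.I p o j,
        t p j i = D.g p o i), (1 : ℝ) :=
        Finset.sum_le_sum fun o _ => pow_le_one₀ hβ.le hβ1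
    _ = ((D.V p).filter (fun o => D.cmp o ∈ Js K κ ∧ ∀ j ∉ Js K κ, ∀ i ∈ D.I p o j,
        t p j i = D.g p o i)).card := by simp
    _ ≤ n := by exact_mod_cast (Finset.card_filter_le _ _).trans h

section DK

variable {D : CD k G} {j₀ : Fin k} {os : D.P → D.O} {z : ℕ → ℕ} {N : ℕ} {K : Fin k → ℕ} {κ : ℕ}
  {t : D.P → Fin k → D.ι → G} {p : D.P}

theorem DK_WK_le (hβ : 0 < β) (hβ1 : β ≤ 1) {K₀ : ℕ} (hV : ∀ p, (D.V p).card ≤ K₀) :
    WK β (DK D j₀ os z N K) K κ t p ≤ K₀ := by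
  refine WK_card hβ hβ1 ?_
  refine le_trans ?_ (hV p)
  exact Finset.card_le_card (DK_V_sub (D := D) (j₀ := j₀) (os := os) (z := z) (N := N) (K := K) p)

theorem DK_WK_one (hβ : 0 < β) (hβ1 : β ≤ 1) (hp : sc z N (D.nm p) = κ) (h : Js K κ = {j₀}) :
    WK β (DK D j₀ os z N K) K κ t p ≤ 1 := by
  classical
  have h1 : ((DK D j₀ os z N K).V p).card ≤ 1 := by
    rw [DK_V_pos (by rw [hp]; exact h)]
    refine Finset.card_le_one.mpr ?_
    intro a ha b hb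
    exact (Finset.mem_filter.mp ha).2.trans (Finset.mem_filter.mp hb).2.symm
  have h2 := WK_card (D := DK D j₀ os z N K) (K := K) (κ := κ) (t := t) hβ hβ1 h1
  rwa [Nat.cast_one] at h2

theorem DK_WK_reg (hp : sc z N (D.nm p) = κ) (h : ¬ Js K κ = {j₀}) (hreg : Js K κ = Js K (κ + 2)) :
    WK β (DK D j₀ os z N K) K κ t p = WJbt D β (Js K κ) (t p) p := by
  classical
  have h' : ¬ Js K (sc z N (D.nm p)) = {j₀} := by rwa [hp]
  unfold WK WJbt
  refine Finset.sum_congr ?_ fun o _ => ?_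
  · ext o
    simp only [Finset.mem_filter, if_neg h']
  · rw [← hreg]
    congr 1
    refine Finset.sum_congr rfl fun j _ => ?_
    rw [DK_I_neg h']

end DK

/-- the bound for the sum of the weights at one scale -/
theorem sum_scP (hβ : 0 < β) (hβ1 : β ≤ 1) {D : CD k G} (hS : SysW D.P D.nm) {K₀ : ℕ}
    (hV : ∀ p, (D.V p).card ≤ K₀) (j₀ : Fin k) (os : D.P → D.O)
    {PB : Finset (Fin k) → Prop} {δ κM CB CM : ℝ}
    (hδ0 : 0 ≤ δ) (hδ : δ ≤ κM) (hCB : 0 ≤ CB) (hCM : 0 ≤ CM)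
    (hTB : ∀ J, PB J → ∀ y x : ℕ, 2 ≤ y → y ≤ x → ∀ t : D.P → Fin k → D.ι → G, ∀ S : Finset D.P,
      (∀ p, p ∈ S ↔ p ∉ D.Ex ∧ y < D.nm p ∧ D.nm p ≤ x) →
      ∑ p ∈ S, WJbt D β J (t p) p / D.nm p ≤ (κM - δ) * (Real.log (Real.log x) - Real.log (Real.log y)) + CB)
    (hMe : ∀ y x : ℕ, 2 ≤ y → y ≤ x → ∀ S : Finset D.P, (∀ p ∈ S, y < D.nm p ∧ D.nm p ≤ x) →
      ∑ p ∈ S, (1 : ℝ) / D.nm p ≤ κM * (Real.log (Real.log x) - Real.log (Real.log y)) + CM)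
    {N X : ℕ} (hN : 0 < N) (hX : 3 ≤ X) (K : Fin k → ℕ) {κ : ℕ} (hκN : κ < N)
    (hK : Js K κ = {j₀} ∨ PB (Js K κ))
    {κ₀ : ℕ} (hK0 : κ < κ₀ → Js K κ ≠ {j₀}) (t : D.P → Fin k → D.ι → G) :
    SA β (DK D j₀ os (zz N X) N K) (zz N X) N X K κ t ≤
      (κM - δ) * (Real.log (Real.log X) / N) + (if κ₀ ≤ κ then δ * (Real.log (Real.log X) / N) else 0) +
      (if Js K κ ≠ Js K (κ + 2) then K₀ * (κM * (Real.log (Real.log X) / N)) else 0) +
        ((κM * Real.log 4 + CB) + (K₀ + 1) * (κM * Real.log 4 + CM) + K₀ * (pr D 2).card) := by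
  classical
  obtain ⟨z, hz⟩ : ∃ z, z = zz N X := ⟨_, rfl⟩
  rw [← hz]
  have hκM : 0 ≤ κM := hδ0.trans hδ
  obtain ⟨W, hWdef⟩ : ∃ W : D.P → ℝ, W = fun p => WK β (DK D j₀ os z N K) K κ t p := ⟨_, rfl⟩
  have hW0 : ∀ p, 0 ≤ W p := fun p => by
    rw [hWdef]
    exact WK_nonneg hβ (DK D j₀ os z N K) K κ t p
  have hWl : ∀ p, W p ≤ K₀ := fun p => by
    rw [hWdef]
    exact DK_WK_le hβ hβ1 hV
  have hW1 : ∀ p, sc z N (D.nm p) = κ → Js K κ = {j₀} → W p ≤ 1 := fun p h1 h2 => by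
    rw [hWdef]
    exact DK_WK_one hβ hβ1 h1 h2
  have hWr : ∀ p, sc z N (D.nm p) = κ → ¬ Js K κ = {j₀} → Js K κ = Js K (κ + 2) →
      W p = WJbt D β (Js K κ) (t p) p := fun p h1 h2 h3 => by
    rw [hWdef]
    exact DK_WK_reg h1 h2 h3
  have hSA : SA β (DK D j₀ os z N K) z N X K κ t =
      ∑ p ∈ (pr D X).filter (fun p => p ∉ D.Ex ∧ sc z N (D.nm p) = κ), W p / D.nm p := by
    rw [hWdef]
    rfl
  rw [hSA]
  obtain ⟨ℓ, hℓ⟩ : ∃ ℓ, ℓ = Real.log (Real.log X) := ⟨_, rfl⟩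
  rw [← hℓ]
  have hℓ0 : 0 ≤ ℓ := by
    rw [hℓ]
    exact Real.log_nonneg (log_ge_one hX)
  have hl4 : 0 ≤ Real.log 4 := Real.log_nonneg (by norm_num)
  have hN' : (0 : ℝ) < N := by exact_mod_cast hN
  have hnm : ∀ p, (1 : ℝ) ≤ D.nm p := fun p => by
    have := hS.two p
    exact_mod_cast (by omega : 1 ≤ D.nm p)
  obtain ⟨R, hR⟩ : ∃ R : Finset D.P, R = (pr D X).filter fun p => p ∉ D.Ex ∧ sc z N (D.nm p) = κ ∧ z κ < D.nm p :=
    ⟨_, rfl⟩
  have hpt : ∑ p ∈ (pr D X).filter (fun p => p ∉ D.Ex ∧ sc z N (D.nm p) = κ), W p / D.nm p ≤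
      ∑ p ∈ R, W p / D.nm p + K₀ * (pr D 2).card := by
    have h1 : (pr D X).filter (fun p => p ∉ D.Ex ∧ sc z N (D.nm p) = κ) ⊆ R ∪ pr D 2 := by
      intro p hp
      obtain ⟨g1, g2, g3⟩ := Finset.mem_filter.mp hp
      by_cases h2 : D.nm p ≤ 2
      · exact Finset.mem_union_right _ ((mem_pr hS).mpr h2)
      · refine Finset.mem_union_left _ ?_
        rw [hR]
        refine Finset.mem_filter.mpr ⟨g1, g2, g3, ?_⟩
        by_cases h0 : κ = 0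
        · rw [h0, hz, zz_zero]
          omega
        · rw [← g3]
          exact sc_pos (by omega)
    have h2 : ∀ p, 0 ≤ W p / D.nm p := fun p => div_nonneg (hW0 p) (by linarith [hnm p])
    refine (Finset.sum_le_sum_of_subset_of_nonneg h1 fun p _ _ => h2 p).trans ?_
    have h7 : ∑ p ∈ R ∪ pr D 2, W p / D.nm p ≤ ∑ p ∈ R, W p / D.nm p + ∑ p ∈ pr D 2, W p / D.nm p := by
      rw [← Finset.sum_union_inter]
      have := Finset.sum_nonneg fun p (_ : p ∈ R ∩ pr D 2) => h2 p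
      linarith
    refine h7.trans ?_
    refine add_le_add le_rfl ?_
    have h3 : ∀ p ∈ pr D 2, W p / D.nm p ≤ K₀ := by
      intro p _
      have h4 := hnm p
      have h5 := hWl p
      have h6 := hW0 p
      rw [div_le_iff₀ (by linarith)]
      nlinarith
    refine (Finset.sum_le_sum h3).trans (le_of_eq ?_)
    rw [Finset.sum_const, nsmul_eq_mul, mul_comm]
  refine hpt.trans ?_
  obtain ⟨T, hT⟩ : ∃ T : Finset D.P, T = (pr D (z (κ + 1))).filter (fun p => p ∉ D.Ex ∧ z κ < D.nm p) :=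
    ⟨_, rfl⟩
  have hRT : R ⊆ T := by
    intro p hp
    rw [hR] at hp
    obtain ⟨h1, h2, h3, h4⟩ := Finset.mem_filter.mp hp
    rw [hT]
    refine Finset.mem_filter.mpr ⟨(mem_pr hS).mpr ?_, h2, h4⟩
    rcases Nat.lt_or_ge (κ + 1) N with h5 | h5
    · exact sc_le (z := z) (N := N) (k := κ + 1) (by omega) (by omega)
    · have h6 : κ + 1 = N := by omega
      rw [h6, hz, zz_top hN hX]
      exact (mem_pr hS).mp h1
  have hTm : ∀ p, p ∈ T ↔ p ∉ D.Ex ∧ z κ < D.nm p ∧ D.nm p ≤ z (κ + 1) := by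
    intro p
    rw [hT, Finset.mem_filter, mem_pr hS]
    tauto
  have hRs : ∀ p ∈ R, sc z N (D.nm p) = κ := by
    intro p hp
    rw [hR] at hp
    exact (Finset.mem_filter.mp hp).2.2.1
  have hd := ll_diff hN hX hκN
  rw [← hz, ← hℓ] at hd
  have hzκ : 2 ≤ z κ := by
    rw [hz]
    exact zz_two hX
  have hzm : z κ ≤ z (κ + 1) := by
    rw [hz]
    exact zz_mono hX (Nat.le_succ κ)
  have hd0 : 0 ≤ ℓ / N := by positivity
  have hK0' : (0 : ℝ) ≤ K₀ := Nat.cast_nonneg _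
  have hd1 : 0 ≤ (κM - δ) * (ℓ / N) := mul_nonneg (by linarith) hd0
  have hd2 : 0 ≤ δ * (ℓ / N) := mul_nonneg hδ0 hd0
  have hd3 : 0 ≤ κM * (ℓ / N) := mul_nonneg hκM hd0
  have hκl : 0 ≤ κM * Real.log 4 := mul_nonneg hκM hl4
  have hi1 : (0 : ℝ) ≤ if κ₀ ≤ κ then δ * (ℓ / N) else 0 := by split_ifs <;> linarith
  have hi2 : (0 : ℝ) ≤ if Js K κ ≠ Js K (κ + 2) then K₀ * (κM * (ℓ / N)) else 0 := by
    have := mul_nonneg hK0' hd3
    split_ifs <;> linarith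
  have hc1 : 0 ≤ κM * Real.log 4 + CM := by linarith
  have hc2 : 0 ≤ (K₀ : ℝ) * (κM * Real.log 4 + CM) := mul_nonneg hK0' hc1
  have hc3 : ((K₀ : ℝ) + 1) * (κM * Real.log 4 + CM) = K₀ * (κM * Real.log 4 + CM) + (κM * Real.log 4 + CM) := by ring
  have hdM : κM * (Real.log (Real.log (z (κ + 1))) - Real.log (Real.log (z κ))) ≤ κM * (ℓ / N) + κM * Real.log 4 := by
    have := mul_le_mul_of_nonneg_left hd hκM
    rwa [mul_add] at this
  by_cases hj : Js K κ = {j₀}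
  · have h0 : κ₀ ≤ κ := by
      by_contra hlt
      exact hK0 (by omega) hj
    have h1 : ∑ p ∈ R, W p / D.nm p ≤ ∑ p ∈ R, (1 : ℝ) / D.nm p := by
      refine Finset.sum_le_sum fun p hp => ?_
      exact div_le_div_of_nonneg_right (hW1 p (hRs p hp) hj) (by linarith [hnm p])
    have h2 := hMe (z κ) (z (κ + 1)) hzκ hzm R (fun p hp => ((hTm p).mp (hRT hp)).2)
    have h3 : (κM - δ) * (ℓ / N) + (if κ₀ ≤ κ then δ * (ℓ / N) else 0) = κM * (ℓ / N) := by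
      rw [if_pos h0]
      ring
    rw [h3, hc3]
    linarith
  by_cases hreg : Js K κ ≠ Js K (κ + 2)
  · rw [if_pos hreg]
    have h1 : ∑ p ∈ R, W p / D.nm p ≤ ∑ p ∈ R, K₀ * ((1 : ℝ) / D.nm p) := by
      refine Finset.sum_le_sum fun p _ => ?_
      rw [mul_one_div]
      exact div_le_div_of_nonneg_right (hWl p) (by linarith [hnm p])
    rw [← Finset.mul_sum] at h1
    have h2 := hMe (z κ) (z (κ + 1)) hzκ hzm R (fun p hp => ((hTm p).mp (hRT hp)).2)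
    have h3 : K₀ * ∑ p ∈ R, (1 : ℝ) / D.nm p ≤ K₀ * (κM * (ℓ / N) + κM * Real.log 4 + CM) :=
      mul_le_mul_of_nonneg_left (by linarith) hK0'
    have h5 : 0 ≤ κM * Real.log 4 + CB := by linarith
    rw [hc3]
    have h6 : K₀ * (κM * (ℓ / N) + κM * Real.log 4 + CM) = K₀ * (κM * (ℓ / N)) + K₀ * (κM * Real.log 4 + CM) := by ring
    linarith
  · rw [if_neg hreg]
    push Not at hreg
    have hPB : PB (Js K κ) := hK.resolve_left hj
    have h1 : ∑ p ∈ R, W p / D.nm p = ∑ p ∈ R, WJbt D β (Js K κ) (t p) p / D.nm p := by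
      refine Finset.sum_congr rfl fun p hp => ?_
      rw [hWr p (hRs p hp) hj hreg]
    have hWJ0 : ∀ p, 0 ≤ WJbt D β (Js K κ) (t p) p := fun p => Finset.sum_nonneg fun o _ => by positivity
    have h2 : ∑ p ∈ R, WJbt D β (Js K κ) (t p) p / D.nm p ≤ ∑ p ∈ T, WJbt D β (Js K κ) (t p) p / D.nm p :=
      Finset.sum_le_sum_of_subset_of_nonneg hRT fun p _ _ => div_nonneg (hWJ0 p) (by linarith [hnm p])
    have h3 := hTB _ hPB (z κ) (z (κ + 1)) hzκ hzm t T hTm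
    have h4 : (κM - δ) * (Real.log (Real.log (z (κ + 1))) - Real.log (Real.log (z κ))) ≤ (κM - δ) * (ℓ / N + Real.log 4) :=
      mul_le_mul_of_nonneg_left hd (by linarith)
    have h5 : (κM - δ) * (ℓ / N + Real.log 4) ≤ (κM - δ) * (ℓ / N) + κM * Real.log 4 := by
      have : 0 ≤ δ * Real.log 4 := mul_nonneg hδ0 hl4
      have e : (κM - δ) * (ℓ / N + Real.log 4) = (κM - δ) * (ℓ / N) + κM * Real.log 4 - δ * Real.log 4 := by ring
      rw [e]
      linarith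
    rw [h1, hc3]
    linarith

/-- the sum of the bounds over the scales -/
theorem sum_bdP {δ κM ℓ c K₀ : ℝ} {N κ₀ : ℕ} (hN : 0 < N) (hκ₀ : κ₀ ≤ N) (K : Fin k → ℕ)
    (hK₀ : 0 ≤ K₀) (hκM : 0 ≤ κM) (hℓ : 0 ≤ ℓ) :
    ∑ κ ∈ Finset.range N, ((κM - δ) * (ℓ / N) + (if κ₀ ≤ κ then δ * (ℓ / N) else 0) +
      (if Js K κ ≠ Js K (κ + 2) then K₀ * (κM * (ℓ / N)) else 0) + c) ≤
      N * c + ((κM - δ * (κ₀ / N)) + 2 * k * (K₀ * κM) / N) * ℓ := by
  have hN' : (0 : ℝ) < N := by exact_mod_cast hN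
  rw [Finset.sum_add_distrib, Finset.sum_add_distrib, Finset.sum_add_distrib, Finset.sum_const, Finset.sum_const, Finset.card_range,
    nsmul_eq_mul, nsmul_eq_mul, ← Finset.sum_filter, ← Finset.sum_filter, Finset.sum_const, Finset.sum_const, nsmul_eq_mul, nsmul_eq_mul]
  have hirr : (((Finset.range N).filter fun κ => Js K κ ≠ Js K (κ + 2)).card : ℝ) ≤ 2 * k := by exact_mod_cast irr_card K N
  have h7 : (((Finset.range N).filter fun κ => Js K κ ≠ Js K (κ + 2)).card : ℝ) * (K₀ * (κM * (ℓ / N))) ≤ 2 * k * (K₀ * (κM * (ℓ / N))) :=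
    mul_le_mul_of_nonneg_right hirr (by positivity)
  have hcut : (((Finset.range N).filter fun κ => κ₀ ≤ κ).card : ℝ) = N - κ₀ := by
    have e : (Finset.range N).filter (fun κ => κ₀ ≤ κ) = Finset.Ico κ₀ N := by
      ext κ
      rw [Finset.mem_filter, Finset.mem_range, Finset.mem_Ico]
      tauto
    rw [e, Nat.card_Ico, Nat.cast_sub hκ₀]
  rw [hcut]
  have h8 : (N : ℝ) * ((κM - δ) * (ℓ / N)) + (N - κ₀) * (δ * (ℓ / N)) = (κM - δ * (κ₀ / N)) * ℓ := by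
    field_simp
    ring
  have h9 : ((κM - δ * ((κ₀ : ℝ) / N)) + 2 * k * (K₀ * κM) / N) * ℓ =
      (κM - δ * (κ₀ / N)) * ℓ + 2 * k * (K₀ * (κM * (ℓ / N))) := by ring
  rw [h9, ← h8]
  linarith

/-- the main count -/
theorem main_countP [CommGroup G] (hβ : 0 < β) {D : CD k G} (hS : SysW D.P D.nm)
    {Ok : Finset D.P → Prop} (hOk : ∀ m c, m ⊆ c → Ok c → Ok m) {ε C : ℝ} {A : ℕ} (hC : 0 < C)
    (hε : 0 < ε) (hε1 : ε ≤ 1)
    (hBT : BTc D β Ok ε C A) {z : ℕ → ℕ} {N X : ℕ} (hN : 2 ≤ N) (hz : 2 ≤ z (N - 1)) (hX : 3 ≤ X) {j₀ : Fin k} (hSp : Special D j₀)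
    {os : D.P → D.O} (hos : ∀ p, (∃ o ∈ D.V p, D.cmp o = j₀) → os p ∈ D.V p ∧ D.cmp (os p) = j₀)
    {K₀ : ℕ} (hV : ∀ p, (D.V p).card ≤ K₀)
    {PB : ℕ → Finset (Fin k) → Prop} (hPB : ∀ κ J, PB κ J → J.Nonempty) (S : Finset (Finset D.P))
    (hSc : ∀ c ∈ S, Nm D c ≤ X ∧ Ok c ∧ (∃ τ : D.P → D.O, BadT D c τ ∧ ∀ κ < N, PB κ (Js (Kof D z N c τ) κ)) ∧
      (∀ κ, 1 ≤ κ → κ + 1 ≤ N - 1 → open Classical in
        (∏ p ∈ (pf D c).filter (fun p => D.nm p ≤ z κ), D.nm p) ^ A ≤ z (κ + 1)))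
    {B : ℝ} {Bf : (Fin k → ℕ) → ℕ → ℝ}
    (hBf : ∀ K : Fin k → ℕ, (∀ j, K j ≤ N) → (∀ κ < N, PB κ (Js K κ)) → ∀ κ < N,
      ∀ t : D.P → Fin k → D.ι → G, SA β (DK D j₀ os z N K) z N X K κ t ≤ Bf K κ)
    (hB : ∀ K : Fin k → ℕ, (∀ j, K j ≤ N) → (∀ κ < N, PB κ (Js K κ)) →
      ∑ κ ∈ Finset.range N, Bf K κ ≤ B) :
    (S.card : ℝ) ≤ (N + 1) ^ k * (K₀ * C * EE ε C K₀ X ^ k / Real.log (z (N - 1)) ^ (1 - ε) * X *
      Real.exp (D.Ex.card + B)) := by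
  classical
  set Ks := (Fintype.piFinset fun _ : Fin k => Finset.range (N + 1)).filter fun K => ∀ κ < N, PB κ (Js K κ) with hKs
  let SK : (Fin k → ℕ) → Finset (Finset D.P) := fun K => S.filter fun c => ∃ τ : D.P → D.O, BadT D c τ ∧ Kof D z N c τ = K
  have hsub : S ⊆ Ks.biUnion SK := by
    intro c hc
    obtain ⟨h1, _, ⟨τ, h2, h3⟩, h4⟩ := hSc c hc
    refine Finset.mem_biUnion.mpr ⟨Kof D z N c τ, Finset.mem_filter.mpr ⟨Fintype.mem_piFinset.mpr fun j =>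
      Finset.mem_range.mpr (Nat.lt_succ_of_le (Kof_le (by omega) c τ j)), h3⟩, Finset.mem_filter.mpr ⟨hc, τ, h2, rfl⟩⟩
  have hlX : 0 ≤ Real.log X := Real.log_natCast_nonneg X
  have hlz : 0 ≤ Real.log (z (N - 1)) := Real.log_natCast_nonneg _
  have hE0 : 0 ≤ EE ε C K₀ X := zero_le_one.trans (EE_ge_one hC hε hX)
  have hK1 : ∀ K ∈ Ks, ((SK K).card : ℝ) ≤ K₀ * C * EE ε C K₀ X ^ k / Real.log (z (N - 1)) ^ (1 - ε) * X *
      Real.exp (D.Ex.card + B) := by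
    intro K hK
    obtain ⟨hKa, hKb⟩ := Finset.mem_filter.mp hK
    have hKle : ∀ j, K j ≤ N := fun j => by
      have := Finset.mem_range.mp (Fintype.mem_piFinset.mp hKa j)
      omega
    have h1 := perKt (D := DK D j₀ os z N K) (K₀ := K₀) (Ok := Ok) hβ hOk hS hC hε hε1
      (BTc_DKb hOk hS hBT)
      (fun p => (Finset.card_le_card (DK_V_sub (D := D) (j₀ := j₀) (os := os) (z := z) (N := N) (K := K) p)).trans (hV p))
      hN hz hX hKle (hPB _ _ (hKb (N - 1) (by omega))) (SK K) (by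
        intro c hc
        obtain ⟨hcS, τ, hτ, hτK⟩ := Finset.mem_filter.mp hc
        obtain ⟨h1, h0, _, h4⟩ := hSc c hcS
        obtain ⟨τ', h5, h6⟩ := badT_DK (z := z) (N := N) hSp hos hτ
        rw [hτK] at h5 h6
        have h7 := cover_cfg (D := DK D j₀ os z N K) (Ok := Ok) (A := A) (X := X) hS h1 h0 h5 h4
        rw [h6] at h7
        exact h7) (B := Bf K) (fun κ hκ t => hBf K hKle hKb κ hκ t)
    refine h1.trans ?_
    have h2 := hB K hKle hKb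
    refine mul_le_mul_of_nonneg_left (Real.exp_le_exp.mpr ?_) (by positivity)
    exact add_le_add le_rfl h2
  have hcard : (S.card : ℝ) ≤ ∑ K ∈ Ks, ((SK K).card : ℝ) := by
    exact_mod_cast (Finset.card_le_card hsub).trans Finset.card_biUnion_le
  refine (hcard.trans (Finset.sum_le_sum hK1)).trans ?_
  rw [Finset.sum_const, nsmul_eq_mul]
  have h5 : Ks.card ≤ (N + 1) ^ k := by
    refine (Finset.card_filter_le _ _).trans ?_
    rw [Fintype.card_piFinset]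
    simp
  have h6 : (Ks.card : ℝ) ≤ (N + 1) ^ k := by exact_mod_cast h5
  exact mul_le_mul_of_nonneg_right h6 (by positivity)

end Pool.Agent.PD37
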