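import Pool.Agent.Helper37.TW.Pts

/-!
# Project PD: the rational points of `y ^ ℓ = c f(x)`, general lemmas
-/

set_option autoImplicit false
set_option linter.unusedSectionVars false

namespace Pool.Agent.PD37

open VC Polynomial NumberField Filter Topology Pool.Agent.Helper91.Sect
open Pool.Agent.TW37

noncomputable section

/-! ## Valuations -/

/-- Bezout -/
theorem zpow_bez {Γ : Type} [LinearOrderedCommGroupWithZero Γ] {a b : Γ} (ha : a ≠ 0) {m ℓ : ℕ}
    (h : Nat.Coprime m ℓ) (hab : b ^ ℓ = a ^ m) :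
    a = (b ^ Nat.gcdA m ℓ * a ^ Nat.gcdB m ℓ) ^ ℓ := by
  have h1 := Nat.gcd_eq_gcd_ab m ℓ
  rw [h, Nat.cast_one] at h1
  have h2 : (b ^ Nat.gcdA m ℓ) ^ ℓ = a ^ ((m : ℤ) * Nat.gcdA m ℓ) := by
    rw [← zpow_natCast, ← zpow_mul, mul_comm, zpow_mul, zpow_natCast, hab, ← zpow_natCast, ← zpow_mul]
  have h3 : (a ^ Nat.gcdB m ℓ) ^ ℓ = a ^ ((ℓ : ℤ) * Nat.gcdB m ℓ) := by
    rw [← zpow_natCast, ← zpow_mul, mul_comm]
  rw [mul_pow, h2, h3, ← zpow_add₀ ha, ← h1, zpow_one]

section val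

variable {kb F : Type} [Field kb] [Field F] (P : ValuationSubring F) (j : kb →+* F)
    (hj : ∀ a, j a ∈ P) {x y : F} {g : kb[X]} {c : kb} {ℓ : ℕ}

include hj

theorem val_root (hg : g ≠ 0) (hc : c ≠ 0) (hℓ : ℓ.Prime) {ρ : kb}
    (hρ : ¬ ℓ ∣ g.rootMultiplicity ρ) (hy : y ^ ℓ = j c * eval₂ j x g) (hx : x ∈ P) :
    ∃ z : F, P.valuation (x - j ρ) = P.valuation z ^ ℓ := by
  have hc1 := const_one P j hj hc
  have hy1 : P.valuation y ^ ℓ = P.valuation (eval₂ j x g) := by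
    rw [← map_pow, hy, map_mul, hc1, one_mul]
  have h1 : x - j ρ ∈ P := P.toSubring.sub_mem hx (hj ρ)
  have h2 : P.valuation (x - j ρ) ≤ 1 := (P.valuation_le_one_iff _).2 h1
  rcases h2.lt_or_eq with h3 | h3
  swap
  · exact ⟨1, by rw [h3, map_one, one_pow]⟩
  by_cases h0 : x - j ρ = 0
  · exact ⟨0, by rw [h0, map_zero, zero_pow hℓ.ne_zero]⟩
  obtain ⟨h, hh, hnd⟩ := exists_eq_pow_rootMultiplicity_mul_and_not_dvd g hg ρ
  obtain ⟨m, hm⟩ : ∃ m, m = g.rootMultiplicity ρ := ⟨_, rfl⟩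
  rw [← hm] at hh hρ
  have h4 : h.eval ρ ≠ 0 := fun h0 => hnd (dvd_iff_isRoot.2 h0)
  obtain ⟨q, hq⟩ : X - C ρ ∣ h - C (h.eval ρ) := X_sub_C_dvd_sub_C_eval
  have h5 : eval₂ j x h = (x - j ρ) * eval₂ j x q + j (h.eval ρ) := by
    have h6 := congrArg (eval₂ j x) hq
    rw [eval₂_sub, eval₂_mul, eval₂_sub, eval₂_X, eval₂_C, eval₂_C] at h6
    rw [← h6]
    ring
  have h6 : P.valuation (eval₂ j x h) = 1 := by
    rw [h5, Valuation.map_add_eq_of_lt_right, const_one P j hj h4]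
    rw [const_one P j hj h4, map_mul]
    exact mul_lt_one_of_nonneg_of_lt_one_left zero_le h3
      ((P.valuation_le_one_iff _).2 (eval_mem P j hj hx q))
  have h7 : P.valuation y ^ ℓ = P.valuation (x - j ρ) ^ m := by
    rw [hy1, hh, eval₂_mul, eval₂_pow, eval₂_sub, eval₂_X, eval₂_C, map_mul, h6, mul_one, map_pow]
  have h8 : P.valuation (x - j ρ) ≠ 0 := (Valuation.ne_zero_iff _).2 h0
  have hcop : Nat.Coprime m ℓ := ((Nat.Prime.coprime_iff_not_dvd hℓ).2 hρ).symm
  refine ⟨y ^ Nat.gcdA m ℓ * (x - j ρ) ^ Nat.gcdB m ℓ, ?_⟩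
  rw [map_mul, map_zpow₀, map_zpow₀]
  exact zpow_bez h8 hcop h7

theorem val_big (hx : x ∉ P) (ρ : kb) : P.valuation (x - j ρ) = P.valuation x := by
  have h1 : 1 < P.valuation x := by
    by_contra h
    exact hx ((P.valuation_le_one_iff _).1 (not_lt.1 h))
  rw [sub_eq_add_neg, Valuation.map_add_eq_of_lt_left]
  rw [Valuation.map_neg]
  exact lt_of_le_of_lt ((P.valuation_le_one_iff _).2 (hj ρ)) h1

theorem val_inf (hg : g ≠ 0) (hc : c ≠ 0) (hℓ : ℓ.Prime) (hn : ¬ ℓ ∣ g.natDegree)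
    (hy : y ^ ℓ = j c * eval₂ j x g) (hx : x ∉ P) :
    ∃ z : F, P.valuation x = P.valuation z ^ ℓ := by
  have hc1 := const_one P j hj hc
  have hy1 : P.valuation y ^ ℓ = P.valuation (eval₂ j x g) := by
    rw [← map_pow, hy, map_mul, hc1, one_mul]
  have hx0 : x ≠ 0 := by
    rintro rfl
    exact hx (zero_mem _)
  have h1 : 1 < P.valuation x := by
    by_contra h
    exact hx ((P.valuation_le_one_iff _).1 (not_lt.1 h))
  have h2 : x⁻¹ ∈ P := (P.mem_or_inv_mem x).resolve_left hx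
  have h3 : P.valuation x⁻¹ < 1 := by
    rw [map_inv₀]
    exact inv_lt_one_of_one_lt₀ h1
  have hlc : g.leadingCoeff ≠ 0 := leadingCoeff_ne_zero.2 hg
  let _ : Invertible x := invertibleOfNonzero hx0
  have h4 := eval₂_reverse_mul_pow j x g
  rw [invOf_eq_inv] at h4
  have h5 : P.valuation (eval₂ j x⁻¹ g.reverse) = 1 := by
    have h6 : eval₂ j x⁻¹ g.reverse = eval₂ j x⁻¹ g.reverse.divX * x⁻¹ + j g.leadingCoeff := by
      conv_lhs => rw [← divX_mul_X_add g.reverse]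
      rw [eval₂_add, eval₂_mul, eval₂_X, eval₂_C, coeff_zero_reverse]
    rw [h6, Valuation.map_add_eq_of_lt_right, const_one P j hj hlc]
    rw [const_one P j hj hlc, map_mul]
    exact mul_lt_one_of_nonneg_of_lt_one_right
      ((P.valuation_le_one_iff _).2 (eval_mem P j hj h2 _)) zero_le h3
  have h7 : P.valuation y ^ ℓ = P.valuation x ^ g.natDegree := by
    rw [hy1, ← h4, map_mul, h5, one_mul, map_pow]
  have h8 : P.valuation x ≠ 0 := (Valuation.ne_zero_iff _).2 hx0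
  have hcop : Nat.Coprime g.natDegree ℓ := ((Nat.Prime.coprime_iff_not_dvd hℓ).2 hn).symm
  refine ⟨y ^ Nat.gcdA g.natDegree ℓ * x ^ Nat.gcdB g.natDegree ℓ, ?_⟩
  rw [map_mul, map_zpow₀, map_zpow₀]
  exact zpow_bez h8 hcop h7

/-- infinity is a branch point -/
theorem val_A (hg : g ≠ 0) (hc : c ≠ 0) (hℓ : ℓ.Prime) (hn : ¬ ℓ ∣ g.natDegree) {e ρ : kb}
    (he : e ≠ 0) (hρ : ¬ ℓ ∣ g.rootMultiplicity ρ) (hy : y ^ ℓ = j c * eval₂ j x g) :
    ∃ z : F, P.valuation (j e * (x - j ρ)) = P.valuation z ^ ℓ := by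
  rw [map_mul, const_one P j hj he, one_mul]
  by_cases hx : x ∈ P
  · exact val_root P j hj hg hc hℓ hρ hy hx
  · rw [val_big P j hj hx]
    exact val_inf P j hj hg hc hℓ hn hy hx

/-- two finite branch points -/
theorem val_B (hg : g ≠ 0) (hc : c ≠ 0) (hℓ : ℓ.Prime) {e a ρ : kb} (he : e ≠ 0)
    (ha : ¬ ℓ ∣ g.rootMultiplicity a) (hρ : ¬ ℓ ∣ g.rootMultiplicity ρ) (hρa : ρ ≠ a)
    (hxa : x - j a ≠ 0) (hy : y ^ ℓ = j c * eval₂ j x g) :
    ∃ z : F, P.valuation (j e * ((x - j a)⁻¹ - j (ρ - a)⁻¹)) = P.valuation z ^ ℓ := by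
  have h1 : ρ - a ≠ 0 := sub_ne_zero.2 hρa
  have h2 : j e * ((x - j a)⁻¹ - j (ρ - a)⁻¹) = -(j (e * (ρ - a)⁻¹) * ((x - j ρ) / (x - j a))) := by
    have h3 : j (ρ - a) ≠ 0 := (_root_.map_ne_zero j).2 h1
    rw [map_inv₀, map_mul, map_inv₀]
    rw [map_sub] at h3 ⊢
    field_simp
    ring
  rw [h2, Valuation.map_neg, map_mul, const_one P j hj (mul_ne_zero he (inv_ne_zero h1)), one_mul,
    map_div₀]
  by_cases hx : x ∈ P
  · obtain ⟨z, hz⟩ := val_root P j hj hg hc hℓ hρ hy hx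
    obtain ⟨z', hz'⟩ := val_root P j hj hg hc hℓ ha hy hx
    exact ⟨z / z', by rw [hz, hz', map_div₀, div_pow]⟩
  · refine ⟨1, ?_⟩
    rw [val_big P j hj hx, val_big P j hj hx, map_one, one_pow, div_self]
    refine (Valuation.ne_zero_iff _).2 ?_
    rintro rfl
    exact hx (zero_mem _)

/-- a finite branch point and infinity -/
theorem val_C (hg : g ≠ 0) (hc : c ≠ 0) (hℓ : ℓ.Prime) (hn : ¬ ℓ ∣ g.natDegree) {e a : kb}
    (he : e ≠ 0) (ha : ¬ ℓ ∣ g.rootMultiplicity a) (hy : y ^ ℓ = j c * eval₂ j x g) :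
    ∃ z : F, P.valuation (j e * (x - j a)⁻¹) = P.valuation z ^ ℓ := by
  obtain ⟨z, hz⟩ := val_A P j hj hg hc hℓ hn (e := 1) one_ne_zero ha hy
  rw [map_one, one_mul] at hz
  exact ⟨z⁻¹, by rw [map_mul, const_one P j hj he, one_mul, map_inv₀, hz, map_inv₀, inv_pow]⟩

end val

/-! ## Sections -/

section K

variable {k K : Type} [Field k] [CharZero k] [Field K] [Algebra k K]

/-- The section `s` fixes a place of the field `L` at which `u` has a pole. -/
def FixPt (s : GaloisSection k K) (L : Subfield (AlgebraicClosure K)) (u : K) : Prop :=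
  ∃ W : ValuationSubring (AlgebraicClosure K), (∀ z, IsAlgebraic k z → z ∈ W) ∧
    algebraMap K (AlgebraicClosure K) u ∉ W ∧
    ∀ w ∈ L, ∃ hw : w ∈ Kur k K, ∀ g : Gk k K,
      (w ∈ W ↔ (s.toHom g ⟨w, hw⟩ : AlgebraicClosure K) ∈ W)

/-- a root of unity which is near -/
theorem near_root {k F : Type} [Field k] [Field F] [Algebra k F] (W : ValuationSubring F) {ℓ : ℕ}
    (hℓ : 0 < ℓ) {ζ : k} (hζ : IsPrimitiveRoot ζ ℓ) {η : F} (h : W.valuation (η ^ ℓ - 1) < 1) :
    ∃ ε : k, ε ^ ℓ = 1 ∧ W.valuation (η - algebraMap k F ε) < 1 := by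
  have hζF : IsPrimitiveRoot (algebraMap k F ζ) ℓ := hζ.map_of_injective (algebraMap k F).injective
  have h1 := congrArg (eval η) (X_pow_sub_one_eq_prod hℓ hζF)
  rw [eval_sub, eval_pow, eval_X, eval_one, eval_prod] at h1
  simp only [eval_sub, eval_X, eval_C] at h1
  rw [h1, map_prod] at h
  obtain ⟨ε, hε, hlt⟩ : ∃ ε ∈ nthRootsFinset ℓ (1 : F), W.valuation (η - ε) < 1 := by
    by_contra hcon
    push Not at hcon
    exact absurd h (not_lt.2 (Finset.one_le_prod' fun ε hε => hcon ε hε))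
  rw [mem_nthRootsFinset hℓ] at hε
  have : NeZero ℓ := ⟨hℓ.ne'⟩
  obtain ⟨i, -, hi⟩ := hζF.eq_pow_of_pow_eq_one hε
  refine ⟨ζ ^ i, ?_, ?_⟩
  · rw [← pow_mul, mul_comm, pow_mul, hζ.pow_eq_one, one_pow]
  · rw [map_pow, hi]
    exact hlt

/-- a root of unity in an extension -/
theorem root_in {k F : Type} [Field k] [Field F] [Algebra k F] {ℓ : ℕ}
    (hℓ : 0 < ℓ) {ζ : k} (hζ : IsPrimitiveRoot ζ ℓ) {η : F} (h : η ^ ℓ = 1) :
    ∃ ε : k, ε ^ ℓ = 1 ∧ η = algebraMap k F ε := by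
  have hζF : IsPrimitiveRoot (algebraMap k F ζ) ℓ := hζ.map_of_injective (algebraMap k F).injective
  have : NeZero ℓ := ⟨hℓ.ne'⟩
  obtain ⟨i, -, hi⟩ := hζF.eq_pow_of_pow_eq_one h
  refine ⟨ζ ^ i, ?_, ?_⟩
  · rw [← pow_mul, mul_comm, pow_mul, hζ.pow_eq_one, one_pow]
  · rw [map_pow, hi]

/-- agreement with a place at which `x₁` has a pole: the `ℓ`-th roots of `e (x₁ - ρ)` -/
theorem fix_abs {ℓ : ℕ} (hℓ : ℓ.Prime) {ζ : k} (hζ : IsPrimitiveRoot ζ ℓ)
    {s : GaloisSection k K} {L : Subfield (AlgebraicClosure K)} {x₁ T : K} (hT0 : T ≠ 0) {e : k}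
    (hTL : algebraMap K (AlgebraicClosure K) T ∈ L) (hcL : ∀ z, IsAlgebraic k z → z ∈ L)
    (hA : FixPt s L x₁)
    (hT : ∀ W : ValuationSubring (AlgebraicClosure K), (∀ z, IsAlgebraic k z → z ∈ W) →
      algebraMap K (AlgebraicClosure K) x₁ ∉ W →
      W.valuation (algebraMap K (AlgebraicClosure K) (algebraMap k K e * x₁ * T⁻¹ ^ ℓ) - 1) < 1)
    {ρ : kbar k K} {w : AlgebraicClosure K} (hwL : w ∈ L)
    (hw : w ^ ℓ = algebraMap k (AlgebraicClosure K) e *
      (algebraMap K (AlgebraicClosure K) x₁ - ρ)) :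
    ∃ hwK : w ∈ Kur k K, ∀ g : Gk k K, g ρ = ρ →
      (s.toHom g ⟨w, hwK⟩ : AlgebraicClosure K) = w := by
  classical
  obtain ⟨W, hWc, hxW, hL⟩ := hA
  have hW : ∀ c : k, algebraMap k (AlgebraicClosure K) c ∈ W := fun c =>
    hWc _ (isAlgebraic_algebraMap c)
  obtain ⟨hwK, -⟩ := hL w hwL
  refine ⟨hwK, fun g hg => ?_⟩
  by_cases hw0 : w = 0
  · have h1 : (⟨w, hwK⟩ : Kur k K) = 0 := Subtype.ext hw0
    rw [h1, map_zero, hw0]
    rfl
  obtain ⟨xC, hxC⟩ : ∃ xC, xC = algebraMap K (AlgebraicClosure K) x₁ := ⟨_, rfl⟩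
  obtain ⟨TC, hTC⟩ : ∃ TC, TC = algebraMap K (AlgebraicClosure K) T := ⟨_, rfl⟩
  have hTC0 : TC ≠ 0 := by
    rw [hTC]
    exact (_root_.map_ne_zero _).2 hT0
  have hxC0 : xC ≠ 0 := by
    rintro h
    rw [← hxC, h] at hxW
    exact hxW (zero_mem _)
  have hu : W.valuation xC⁻¹ < 1 := by
    rw [← ValuationSubring.mem_nonunits_iff, ValuationSubring.mem_nonunits_iff_or]
    right
    rw [inv_inv, hxC]
    exact hxW
  have hρW : W.valuation (ρ : AlgebraicClosure K) ≤ 1 :=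
    (W.valuation_le_one_iff _).2 (const_mem hW (mem_algebraicClosure_iff.1 ρ.2))
  obtain ⟨A, hAd⟩ : ∃ A : AlgebraicClosure K, A = algebraMap k (AlgebraicClosure K) e * xC *
    TC⁻¹ ^ ℓ := ⟨_, rfl⟩
  have hA1 : W.valuation (A - 1) < 1 := by
    have h1 := hT W hWc hxW
    rw [map_mul, map_mul, map_pow, map_inv₀, ← IsScalarTower.algebraMap_apply, ← hxC, ← hTC,
      ← hAd] at h1
    exact h1
  have hAv : W.valuation A = 1 := by
    have h1 : A = (A - 1) + 1 := by ring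
    rw [h1, Valuation.map_add_eq_of_lt_right _ (by rw [map_one]; exact hA1), map_one]
  obtain ⟨η, hη⟩ : ∃ η : AlgebraicClosure K, η = w / TC := ⟨_, rfl⟩
  have hηℓ : η ^ ℓ - 1 = (A - 1) - A * (ρ * xC⁻¹) := by
    rw [hη, div_pow, hw, ← hxC, hAd, inv_pow]
    field_simp
    ring
  have hval : W.valuation (η ^ ℓ - 1) < 1 := by
    rw [hηℓ]
    refine lt_of_le_of_lt (Valuation.map_sub _ _ _) (max_lt hA1 ?_)
    rw [map_mul, hAv, one_mul, map_mul]
    exact mul_lt_one_of_nonneg_of_lt_one_right hρW zero_le hu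
  obtain ⟨ε, hε, hηε⟩ := near_root W hℓ.pos hζ hval
  obtain ⟨w', hw'⟩ : ∃ w' : Kur k K, w' = ⟨w, hwK⟩ := ⟨_, rfl⟩
  rw [← hw']
  have hw'c : (w' : AlgebraicClosure K) = w := by rw [hw']
  have hw'0 : w' ≠ 0 := by
    intro h
    rw [h] at hw'c
    exact hw0 hw'c.symm
  have hw2 : s.toHom g w' ^ ℓ = w' ^ ℓ := by
    rw [← map_pow]
    have h1 : w' ^ ℓ = algebraMap K (Kur k K) (algebraMap k K e) *
        (algebraMap K (Kur k K) x₁ - toKur k K ρ) := by
      apply Subtype.ext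
      show (w' : AlgebraicClosure K) ^ ℓ = _
      rw [hw'c]
      exact hw
    rw [h1, map_mul, map_sub, AlgEquiv.commutes, AlgEquiv.commutes, section_toKur, hg]
  obtain ⟨ω, hω, hωw⟩ := root_in (F := Kur k K) hℓ.pos hζ (η := s.toHom g w' / w') (by
    rw [div_pow, hw2, div_self (pow_ne_zero _ hw'0)])
  have hsw : s.toHom g w' = algebraMap k (Kur k K) ω * w' := by
    rw [← hωw, div_mul_cancel₀ _ hw'0]
  -- the element `η` of `Kur`
  obtain ⟨η', hη'⟩ : ∃ η' : Kur k K, η' = w' / algebraMap K (Kur k K) T := ⟨_, rfl⟩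
  have hη'c : (η' : AlgebraicClosure K) = η := by
    rw [hη', hη, ← hw'c, hTC]
    rfl
  have h1 : s.toHom g η' = algebraMap k (Kur k K) ω * η' := by
    rw [hη', map_div₀, AlgEquiv.commutes, hsw]
    ring
  have hcK : ∀ a : k, s.toHom g (algebraMap k (Kur k K) a) = algebraMap k (Kur k K) a := by
    intro a
    rw [IsScalarTower.algebraMap_apply k K (Kur k K), AlgEquiv.commutes]
  have hcoe : ∀ a : k, ((algebraMap k (Kur k K) a : Kur k K) : AlgebraicClosure K) =
      algebraMap k (AlgebraicClosure K) a := fun a => by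
    rw [IsScalarTower.algebraMap_apply k K (Kur k K), IsScalarTower.algebraMap_apply k K
      (AlgebraicClosure K)]
    rfl
  have hηL : η - algebraMap k (AlgebraicClosure K) ε ∈ L := by
    rw [hη]
    exact sub_mem (div_mem hwL (by rw [hTC]; exact hTL)) (hcL _ (isAlgebraic_algebraMap _))
  have h3 : W.valuation (algebraMap k (AlgebraicClosure K) ω * η -
      algebraMap k (AlgebraicClosure K) ε) < 1 := by
    have h6 : (s.toHom g (η' - algebraMap k (Kur k K) ε) : AlgebraicClosure K) =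
        algebraMap k (AlgebraicClosure K) ω * η - algebraMap k (AlgebraicClosure K) ε := by
      rw [map_sub, h1, hcK]
      show ((algebraMap k (Kur k K) ω : Kur k K) : AlgebraicClosure K) *
        (η' : AlgebraicClosure K) - ((algebraMap k (Kur k K) ε : Kur k K) : AlgebraicClosure K) = _
      rw [hcoe, hcoe, hη'c]
    by_cases h0 : η - algebraMap k (AlgebraicClosure K) ε = 0
    · have h4 : η' - algebraMap k (Kur k K) ε = 0 := by
        apply Subtype.ext
        show (η' : AlgebraicClosure K) - ((algebraMap k (Kur k K) ε : Kur k K) :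
          AlgebraicClosure K) = 0
        rw [hcoe, hη'c, h0]
      rw [h4, map_zero] at h6
      rw [← h6]
      show W.valuation (0 : AlgebraicClosure K) < 1
      rw [map_zero]
      exact zero_lt_one
    · obtain ⟨h4, h5⟩ := hL (η - algebraMap k (AlgebraicClosure K) ε)⁻¹ (inv_mem hηL)
      have h7 := (h5 g).not
      have h8 : (⟨(η - algebraMap k (AlgebraicClosure K) ε)⁻¹, h4⟩ : Kur k K) =
          (η' - algebraMap k (Kur k K) ε)⁻¹ := by
        apply Subtype.ext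
        show (η - algebraMap k (AlgebraicClosure K) ε)⁻¹ = ((η' : AlgebraicClosure K) -
          ((algebraMap k (Kur k K) ε : Kur k K) : AlgebraicClosure K))⁻¹
        rw [hη'c, hcoe]
      have h9 : ((s.toHom g ⟨(η - algebraMap k (AlgebraicClosure K) ε)⁻¹, h4⟩ : Kur k K) :
          AlgebraicClosure K) = (algebraMap k (AlgebraicClosure K) ω * η -
            algebraMap k (AlgebraicClosure K) ε)⁻¹ := by
        rw [h8, map_inv₀, ← h6]
        rfl
      rw [h9] at h7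
      rw [← ValuationSubring.mem_nonunits_iff, ValuationSubring.mem_nonunits_iff_or]
      right
      rw [← h7]
      rw [← ValuationSubring.mem_nonunits_iff, ValuationSubring.mem_nonunits_iff_or] at hηε
      exact hηε.resolve_left h0
  have hωW : W.valuation (algebraMap k (AlgebraicClosure K) ω) ≤ 1 :=
    (W.valuation_le_one_iff _).2 (hW _)
  have h4 : W.valuation (algebraMap k (AlgebraicClosure K) ((ω - 1) * ε)) < 1 := by
    have h5 : algebraMap k (AlgebraicClosure K) ((ω - 1) * ε) =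
        (algebraMap k (AlgebraicClosure K) ω * η - algebraMap k (AlgebraicClosure K) ε) -
        algebraMap k (AlgebraicClosure K) ω * (η - algebraMap k (AlgebraicClosure K) ε) := by
      rw [map_mul, map_sub, map_one]
      ring
    rw [h5]
    refine lt_of_le_of_lt (Valuation.map_sub _ _ _) (max_lt h3 ?_)
    rw [map_mul]
    exact mul_lt_one_of_nonneg_of_lt_one_right hωW zero_le hηε
  have hε0 : ε ≠ 0 := by
    rintro rfl
    rw [zero_pow hℓ.ne_zero] at hε
    exact zero_ne_one hε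
  have h5 : ω = 1 := by
    by_contra hne
    have h6 := const_val_eq_one hW (isAlgebraic_algebraMap ((ω - 1) * ε))
      ((_root_.map_ne_zero (algebraMap k (AlgebraicClosure K))).2
        (mul_ne_zero (sub_ne_zero.2 hne) hε0))
    rw [h6] at h4
    exact lt_irrefl _ h4
  rw [hsw, h5, map_one, one_mul, hw'c]

/-- the value of the root at a rational point -/
theorem val_abs {ℓ : ℕ} (hℓ : ℓ.Prime) {ζ : k} (hζ : IsPrimitiveRoot ζ ℓ)
    {s : GaloisSection k K} {W : ValuationSubring (AlgebraicClosure K)}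
    (hW : ∀ c : k, algebraMap k (AlgebraicClosure K) c ∈ W)
    (hs : ∀ g : Gk k K, ∃ τ : AlgebraicClosure K ≃ₐ[K] AlgebraicClosure K,
      (∀ z, τ z ∈ W ↔ z ∈ W) ∧ ∀ z : Kur k K, (s.toHom g z : AlgebraicClosure K) = τ z)
    {x₁ : K} {a₁ e : k}
    (hx₁ : W.valuation (algebraMap K (AlgebraicClosure K) (x₁ - algebraMap k K a₁)) < 1)
    {ρ : kbar k K} {w : AlgebraicClosure K} {hwK : w ∈ Kur k K}
    (hw : w ^ ℓ = algebraMap k (AlgebraicClosure K) e *
      (algebraMap K (AlgebraicClosure K) x₁ - ρ))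
    (hfix : ∀ g : Gk k K, g ρ = ρ → (s.toHom g ⟨w, hwK⟩ : AlgebraicClosure K) = w) :
    ∃ d : kbar k K, d ^ ℓ = algebraMap k (kbar k K) e * (algebraMap k (kbar k K) a₁ - ρ) ∧
      d ∈ IntermediateField.adjoin k {ρ} := by
  classical
  obtain ⟨d₀, hd₀⟩ : ∃ d₀ : kbar k K, d₀ ^ ℓ = algebraMap k (kbar k K) e *
      (algebraMap k (kbar k K) a₁ - ρ) := IsAlgClosed.exists_pow_nat_eq _ hℓ.pos
  have hd₀c : (d₀ : AlgebraicClosure K) ^ ℓ = algebraMap k (AlgebraicClosure K) e *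
        (algebraMap k (AlgebraicClosure K) a₁ - ρ) :=
    congrArg (fun z : kbar k K => (z : AlgebraicClosure K)) hd₀
  have h1 : W.valuation (w ^ ℓ - (d₀ : AlgebraicClosure K) ^ ℓ) < 1 := by
    have h2 : w ^ ℓ - (d₀ : AlgebraicClosure K) ^ ℓ = algebraMap k (AlgebraicClosure K) e *
        algebraMap K (AlgebraicClosure K) (x₁ - algebraMap k K a₁) := by
      rw [hw, hd₀c, map_sub, ← IsScalarTower.algebraMap_apply]
      ring
    rw [h2, map_mul]
    exact mul_lt_one_of_nonneg_of_lt_one_right ((W.valuation_le_one_iff _).2 (hW _)) zero_le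
      hx₁
  obtain ⟨d, hd, hwd⟩ : ∃ d : kbar k K, d ^ ℓ = d₀ ^ ℓ ∧
      W.valuation (w - (d : AlgebraicClosure K)) < 1 := by
    by_cases hd0 : d₀ = 0
    · refine ⟨0, by rw [hd0], ?_⟩
      have h3 : (d₀ : AlgebraicClosure K) = 0 := by rw [hd0]; rfl
      rw [h3, zero_pow hℓ.ne_zero, sub_zero, map_pow] at h1
      have h4 : ((0 : kbar k K) : AlgebraicClosure K) = 0 := rfl
      rw [h4, sub_zero]
      by_contra hcon
      exact absurd h1 (not_lt.2 (one_le_pow₀ (not_lt.1 hcon)))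
    · have hdC : (d₀ : AlgebraicClosure K) ≠ 0 := by
        intro h
        exact hd0 (Subtype.ext h)
      have hv : W.valuation (d₀ : AlgebraicClosure K) = 1 :=
        const_val_eq_one hW (mem_algebraicClosure_iff.1 d₀.2) hdC
      have h3 : W.valuation ((w / d₀) ^ ℓ - 1) < 1 := by
        have h4 : (w / (d₀ : AlgebraicClosure K)) ^ ℓ - 1 =
            (w ^ ℓ - (d₀ : AlgebraicClosure K) ^ ℓ) / (d₀ : AlgebraicClosure K) ^ ℓ := by
          rw [div_pow, sub_div, div_self (pow_ne_zero _ hdC)]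
        rw [h4, map_div₀, map_pow, hv, one_pow, div_one]
        exact h1
      obtain ⟨ε, hε, hlt⟩ := near_root W hℓ.pos hζ h3
      refine ⟨algebraMap k (kbar k K) ε * d₀, ?_, ?_⟩
      · rw [mul_pow, ← map_pow, hε, map_one, one_mul]
      · have h5 : w - ((algebraMap k (kbar k K) ε * d₀ : kbar k K) : AlgebraicClosure K) =
            d₀ * (w / d₀ - algebraMap k (AlgebraicClosure K) ε) := by
          have h6 : ((algebraMap k (kbar k K) ε * d₀ : kbar k K) : AlgebraicClosure K) =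
            algebraMap k (AlgebraicClosure K) ε * d₀ := rfl
          rw [h6]
          field_simp
        rw [h5, map_mul, hv, one_mul]
        exact hlt
  refine ⟨d, hd.trans hd₀, mem_adj fun g hg => ?_⟩
  obtain ⟨τ, hτW, hτ⟩ := hs g
  have hτlt : ∀ z, W.valuation z < 1 → W.valuation (τ z) < 1 := by
    intro z hz
    rw [← ValuationSubring.mem_nonunits_iff, ValuationSubring.mem_nonunits_iff_or] at hz ⊢
    rcases hz with hz | hz
    · left
      rw [hz, map_zero]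
    · right
      rw [← map_inv₀, hτW]
      exact hz
  have h2 : τ w = w := (hτ ⟨w, hwK⟩).symm.trans (hfix g hg)
  have h3 : τ (d : AlgebraicClosure K) = ((g d : kbar k K) : AlgebraicClosure K) := by
    rw [← s.isSection g d ⟨d, kbar_mem_Kur d⟩ rfl, hτ]
  have h4 := hτlt _ hwd
  rw [map_sub, h2, h3] at h4
  by_contra hne
  have h5 : ((g d - d : kbar k K) : AlgebraicClosure K) ≠ 0 := by
    intro h
    exact hne (sub_eq_zero.1 (Subtype.ext h))
  have h6 := const_val_eq_one hW (mem_algebraicClosure_iff.1 (g d - d).2) h5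
  have h7 : ((g d - d : kbar k K) : AlgebraicClosure K) = (w - (d : AlgebraicClosure K)) -
      (w - ((g d : kbar k K) : AlgebraicClosure K)) := by
    have h8 : ((g d - d : kbar k K) : AlgebraicClosure K) =
      ((g d : kbar k K) : AlgebraicClosure K) - (d : AlgebraicClosure K) := rfl
    rw [h8]
    ring
  rw [h7] at h6
  have h8 := lt_of_le_of_lt (Valuation.map_sub W.valuation _ _) (max_lt hwd h4)
  rw [h6] at h8
  exact lt_irrefl _ h8

end K

end

end Pool.Agent.PD37
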