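import Pool.Agent.Helper37.PD.PtsL
import Pool.Agent.Helper45.PD.Defs2

/-!
# Project PD: the rational points of `y ^ ℓ = c f(x)`
-/

set_option autoImplicit false
set_option linter.unusedSectionVars false

namespace Pool.Agent.PD37

open VC Polynomial NumberField Filter Topology Pool.Agent.Helper91.Sect
open Pool.Agent.TW37
open Pool.Agent.PDL (IsBr KB1 KB2 IsRt1 Lev1 AgrAt OthL)
open Pool.Agent.Helper88.HG (pvr tt)

noncomputable section

/-! ## Laurent series -/

section lau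

/-- Hensel's lemma for power series (helper87) -/
theorem hensL {k : Type} [Field k] (f : (PowerSeries k)[X]) (hf : f.Monic) (a : k)
    (h0 : (f.map PowerSeries.constantCoeff).eval a = 0)
    (h1 : (f.map PowerSeries.constantCoeff).derivative.eval a ≠ 0) :
    ∃ y : PowerSeries k, f.eval y = 0 := by
  have hcc : ∀ g : (PowerSeries k)[X], PowerSeries.constantCoeff (g.eval (PowerSeries.C a)) =
      (g.map PowerSeries.constantCoeff).eval a := by
    intro g
    rw [← Polynomial.eval_map_apply]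
    simp
  have hmem : ∀ x : PowerSeries k, x ∈ Ideal.span {(PowerSeries.X : PowerSeries k)} ↔
      PowerSeries.constantCoeff x = 0 := by
    intro x
    rw [Ideal.mem_span_singleton, PowerSeries.X_dvd_iff]
  obtain ⟨y, hy, hy2⟩ := HenselianRing.is_henselian
    (I := Ideal.span {(PowerSeries.X : PowerSeries k)}) f hf (PowerSeries.C a)
    (by rw [hmem, hcc, h0]) (by
      refine IsUnit.map _ ?_
      rw [PowerSeries.isUnit_iff_constantCoeff, hcc, Polynomial.derivative_map] at *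
      exact isUnit_iff_ne_zero.2 h1)
  exact ⟨y, hy⟩

theorem exists_rootL {k : Type} [Field k] [CharZero k] {ℓ : ℕ} (hℓ : 0 < ℓ) (w : PowerSeries k)
    (hw : PowerSeries.constantCoeff w = 1) : ∃ u : PowerSeries k, u ^ ℓ = w := by
  obtain ⟨y, hy⟩ := hensL (X ^ ℓ - C w) (monic_X_pow_sub_C w hℓ.ne') 1
    (by simp [hw]) (by
      simp only [Polynomial.map_sub, Polynomial.map_pow, map_X, map_C, derivative_sub,
        derivative_X_pow, derivative_C, sub_zero, eval_mul, eval_C, eval_pow, eval_X, one_pow,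
        mul_one]
      exact_mod_cast hℓ.ne')
  refine ⟨y, ?_⟩
  rw [eval_sub, eval_pow, eval_X, eval_C, sub_eq_zero] at hy
  exact hy

variable {k : Type} [Field k] [CharZero k]

/-- the root of `g(t ^ j) / g(0)` -/
theorem root_comp {ℓ : ℕ} (hℓ : 0 < ℓ) {g : k[X]} (hg : eval 0 g ≠ 0) {j : ℕ} (hj : 0 < j) :
    ∃ u : LaurentSeries k, u ^ ℓ * algebraMap k (LaurentSeries k) (eval 0 g) =
      aeval (tt k ^ j) g := by
  obtain ⟨w, hw⟩ : ∃ w : k[X], w = C (eval 0 g)⁻¹ * g.comp (X ^ j) := ⟨_, rfl⟩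
  have hw1 : PowerSeries.constantCoeff (w : PowerSeries k) = 1 := by
    rw [← PowerSeries.coeff_zero_eq_constantCoeff_apply, coeff_coe, coeff_zero_eq_eval_zero, hw]
    simp only [eval_mul, eval_C, eval_comp, eval_pow, eval_X, zero_pow hj.ne']
    exact inv_mul_cancel₀ hg
  obtain ⟨u, hu⟩ := exists_rootL hℓ (w : PowerSeries k) hw1
  refine ⟨algebraMap (PowerSeries k) (LaurentSeries k) u, ?_⟩
  have h1 : (algebraMap (PowerSeries k) (LaurentSeries k) u) ^ ℓ = aeval (tt k) w := by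
    rw [← map_pow, hu, Pool.Agent.Helper88.HG.coe_aeval]
  rw [h1, hw, map_mul, aeval_C, aeval_comp, map_pow, aeval_X]
  have h3 : algebraMap k (LaurentSeries k) (eval 0 g)⁻¹ *
      algebraMap k (LaurentSeries k) (eval 0 g) = 1 := by
    rw [← map_mul, inv_mul_cancel₀ hg, map_one]
  linear_combination (aeval (tt k ^ j) g) * h3

theorem tt_pow_inv {j : ℕ} (hj : 0 < j) : (tt k ^ j)⁻¹ ∉ pvr k := by
  rintro ⟨g, hg⟩
  have ht0 := Pool.Agent.Helper88.HG.tt_ne_zero k
  have h1 : algebraMap (PowerSeries k) (LaurentSeries k) (g * PowerSeries.X ^ j) =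
      algebraMap (PowerSeries k) (LaurentSeries k) 1 := by
    rw [map_mul, hg, map_one, map_pow]
    exact inv_mul_cancel₀ (pow_ne_zero _ ht0)
  have h2 := IsFractionRing.injective (PowerSeries k) (LaurentSeries k) h1
  have h3 := congrArg PowerSeries.constantCoeff h2
  rw [map_mul, map_pow, PowerSeries.constantCoeff_X, zero_pow hj.ne', mul_zero, map_one] at h3
  exact zero_ne_one h3

theorem trans_aff {a e : k} (he : e ≠ 0) {j : ℕ} (hj : 0 < j) :
    Transcendental k (algebraMap k (LaurentSeries k) a + algebraMap k (LaurentSeries k) e *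
      tt k ^ j) := by
  intro halg
  apply Pool.Agent.Helper88.HG.transcendental_tt k
  have h1 : IsAlgebraic k (tt k ^ j) := by
    have h2 : tt k ^ j = algebraMap k (LaurentSeries k) e⁻¹ *
        ((algebraMap k (LaurentSeries k) a + algebraMap k (LaurentSeries k) e * tt k ^ j) -
          algebraMap k (LaurentSeries k) a) := by
      rw [map_inv₀]
      have h3 : algebraMap k (LaurentSeries k) e ≠ 0 := (_root_.map_ne_zero _).2 he
      field_simp
      ring
    rw [h2]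
    exact (isAlgebraic_algebraMap _).mul (halg.sub (isAlgebraic_algebraMap _))
  exact h1.of_pow hj

theorem inv_notMem {a e : k} (he : e ≠ 0) {j : ℕ} (hj : 0 < j) :
    ((algebraMap k (LaurentSeries k) a + algebraMap k (LaurentSeries k) e * tt k ^ j) -
      algebraMap k (LaurentSeries k) a)⁻¹ ∉ pvr k := by
  rw [add_sub_cancel_left]
  intro h
  apply tt_pow_inv (k := k) hj
  have h1 := (pvr k).mul_mem _ _ (Pool.Agent.Helper88.HG.pvr_const k e) h
  have h3 : algebraMap k (LaurentSeries k) e ≠ 0 := (_root_.map_ne_zero _).2 he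
  have h2 : algebraMap k (LaurentSeries k) e * (algebraMap k (LaurentSeries k) e * tt k ^ j)⁻¹ =
      (tt k ^ j)⁻¹ := by
    rw [mul_inv, ← mul_assoc, mul_inv_cancel₀ h3, one_mul]
  rwa [h2] at h1

/-- the curve at the point `(x₀, y₀)` -/
theorem laurent_ptL {f : k[X]} {ℓ : ℕ} (hℓ : 0 < ℓ) {c x₀ y₀ : k} (hP : y₀ ^ ℓ = c * eval x₀ f)
    (hy : y₀ ≠ 0) :
    ∃ x y : LaurentSeries k, Transcendental k x ∧
      y ^ ℓ = algebraMap k (LaurentSeries k) c * aeval x f ∧
      (x - algebraMap k (LaurentSeries k) x₀)⁻¹ ∉ pvr k := by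
  have he : eval x₀ f ≠ 0 := by
    intro h
    rw [h, mul_zero] at hP
    exact hy (pow_eq_zero_iff hℓ.ne' |>.1 hP)
  obtain ⟨u, hu⟩ := root_comp (k := k) hℓ (g := f.comp (C x₀ + X)) (j := 1) (by
    rw [eval_comp, eval_add, eval_C, eval_X, add_zero]
    exact he) one_pos
  rw [eval_comp, eval_add, eval_C, eval_X, add_zero, aeval_comp, map_add, aeval_C, aeval_X] at hu
  refine ⟨algebraMap k (LaurentSeries k) x₀ + algebraMap k (LaurentSeries k) 1 * tt k ^ 1,
    algebraMap k (LaurentSeries k) y₀ * u, trans_aff one_ne_zero one_pos, ?_,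
    inv_notMem one_ne_zero one_pos⟩
  rw [map_one, one_mul, ← hu, mul_pow, ← map_pow, hP, map_mul]
  ring

/-- an exponent -/
theorem exp_bez {B : k} (hB : B ≠ 0) {m ℓ : ℕ} (h : Nat.Coprime m ℓ) :
    ∃ e b : k, e ≠ 0 ∧ b ^ ℓ = B * e ^ m := by
  have h1 := Nat.gcd_eq_gcd_ab m ℓ
  rw [h, Nat.cast_one] at h1
  refine ⟨B ^ (-Nat.gcdA m ℓ), B ^ Nat.gcdB m ℓ, zpow_ne_zero _ hB, ?_⟩
  rw [← zpow_natCast, ← zpow_mul, ← zpow_natCast, ← zpow_mul, ← zpow_one_add₀ hB]
  congr 1
  linarith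

/-- the branch point `a` -/
theorem laurent_a {f : k[X]} (hf : f ≠ 0) {ℓ : ℕ} (hℓ : ℓ.Prime) {c a : k} (hc : c ≠ 0)
    (ha : ¬ ℓ ∣ f.rootMultiplicity a) :
    ∃ x y : LaurentSeries k, Transcendental k x ∧
      y ^ ℓ = algebraMap k (LaurentSeries k) c * aeval x f ∧
      (x - algebraMap k (LaurentSeries k) a)⁻¹ ∉ pvr k := by
  obtain ⟨q, hq, hnd⟩ := exists_eq_pow_rootMultiplicity_mul_and_not_dvd f hf a
  obtain ⟨m, hm⟩ : ∃ m, m = f.rootMultiplicity a := ⟨_, rfl⟩
  rw [← hm] at hq ha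
  have hqa : eval a q ≠ 0 := fun h0 => hnd (dvd_iff_isRoot.2 h0)
  have hcop : Nat.Coprime m ℓ := ((Nat.Prime.coprime_iff_not_dvd hℓ).2 ha).symm
  obtain ⟨e, b, he, hb⟩ := exp_bez (mul_ne_zero hc hqa) hcop
  obtain ⟨u, hu⟩ := root_comp (k := k) hℓ.pos (g := q.comp (C a + C e * X)) (j := ℓ) (by
    rw [eval_comp, eval_add, eval_mul, eval_C, eval_C, eval_X, mul_zero, add_zero]
    exact hqa) hℓ.pos
  rw [eval_comp, eval_add, eval_mul, eval_C, eval_C, eval_X, mul_zero, add_zero, aeval_comp,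
    map_add, map_mul, aeval_C, aeval_C, aeval_X] at hu
  refine ⟨algebraMap k (LaurentSeries k) a + algebraMap k (LaurentSeries k) e * tt k ^ ℓ,
    algebraMap k (LaurentSeries k) b * tt k ^ m * u, trans_aff he hℓ.pos, ?_,
    inv_notMem he hℓ.pos⟩
  have h1 : aeval (algebraMap k (LaurentSeries k) a + algebraMap k (LaurentSeries k) e *
      tt k ^ ℓ) f = (algebraMap k (LaurentSeries k) e * tt k ^ ℓ) ^ m *
        (u ^ ℓ * algebraMap k (LaurentSeries k) (eval a q)) := by
    rw [hu, hq, map_mul, map_pow, map_sub, aeval_X, aeval_C, add_sub_cancel_left]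
  have h2 : algebraMap k (LaurentSeries k) b ^ ℓ = algebraMap k (LaurentSeries k) c *
      algebraMap k (LaurentSeries k) (eval a q) * algebraMap k (LaurentSeries k) e ^ m := by
    rw [← map_pow, hb, map_mul, map_mul, map_pow]
  rw [h1, mul_pow, mul_pow, h2, mul_pow, ← pow_mul, ← pow_mul, mul_comm m ℓ]
  ring

/-- the point at infinity -/
theorem laurent_inf {f : k[X]} (hf : f ≠ 0) {ℓ : ℕ} (hℓ : ℓ.Prime) {c : k} (hc : c ≠ 0)
    (hn : ¬ ℓ ∣ f.natDegree) :
    ∃ x y : LaurentSeries k, Transcendental k x ∧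
      y ^ ℓ = algebraMap k (LaurentSeries k) c * aeval x f ∧ x ∉ pvr k := by
  have hlc : f.leadingCoeff ≠ 0 := leadingCoeff_ne_zero.2 hf
  obtain ⟨n, hn'⟩ : ∃ n, n = f.natDegree := ⟨_, rfl⟩
  rw [← hn'] at hn
  have hcop : Nat.Coprime n ℓ := ((Nat.Prime.coprime_iff_not_dvd hℓ).2 hn).symm
  obtain ⟨e, b, he, hb⟩ := exp_bez (mul_ne_zero hc hlc) hcop
  have hr0 : eval 0 f.reverse = f.leadingCoeff := by
    rw [← coeff_zero_eq_eval_zero, coeff_zero_reverse]
  obtain ⟨u, hu⟩ := root_comp (k := k) hℓ.pos (g := f.reverse.comp (C e⁻¹ * X)) (j := ℓ) (by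
    rw [eval_comp, eval_mul, eval_C, eval_X, mul_zero, hr0]
    exact hlc) hℓ.pos
  rw [eval_comp, eval_mul, eval_C, eval_X, mul_zero, hr0, aeval_comp, map_mul, aeval_C,
    aeval_X] at hu
  have ht0 := Pool.Agent.Helper88.HG.tt_ne_zero k
  have he' : algebraMap k (LaurentSeries k) e ≠ 0 := (_root_.map_ne_zero _).2 he
  obtain ⟨x, hx⟩ : ∃ x : LaurentSeries k, x = (algebraMap k (LaurentSeries k) e⁻¹ *
    tt k ^ ℓ)⁻¹ := ⟨_, rfl⟩
  have hxe : x = algebraMap k (LaurentSeries k) e * (tt k ^ ℓ)⁻¹ := by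
    rw [hx, map_inv₀, mul_inv, inv_inv]
  have hx0 : x ≠ 0 := by
    rw [hxe]
    exact mul_ne_zero he' (inv_ne_zero (pow_ne_zero _ ht0))
  refine ⟨x, algebraMap k (LaurentSeries k) b * (tt k ^ n)⁻¹ * u, ?_, ?_, ?_⟩
  · intro h
    apply trans_aff (k := k) (a := 0) (inv_ne_zero he) hℓ.pos
    have h1 := h.inv
    rwa [hx, inv_inv, ← zero_add (algebraMap k (LaurentSeries k) e⁻¹ * tt k ^ ℓ),
      ← map_zero (algebraMap k (LaurentSeries k))] at h1
  · have h1 : aeval x f = x ^ n * (u ^ ℓ * algebraMap k (LaurentSeries k) f.leadingCoeff) := by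
      have h2 := Pool.Agent.HG.eval_reverse f hx0
      rw [hu, ← hn'] at *
      have h3 : x⁻¹ = algebraMap k (LaurentSeries k) e⁻¹ * tt k ^ ℓ := by rw [hx, inv_inv]
      rw [← h3]
      rw [mul_comm]
      exact h2.symm
    have h2 : algebraMap k (LaurentSeries k) b ^ ℓ = algebraMap k (LaurentSeries k) c *
        algebraMap k (LaurentSeries k) f.leadingCoeff * algebraMap k (LaurentSeries k) e ^ n := by
      rw [← map_pow, hb, map_mul, map_mul, map_pow]
    rw [h1, mul_pow, mul_pow, h2, hxe, mul_pow, inv_pow, inv_pow, ← pow_mul, ← pow_mul,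
      mul_comm n ℓ]
    ring
  · intro h
    apply tt_pow_inv (k := k) hℓ.pos
    have h1 := (pvr k).mul_mem _ _ (Pool.Agent.Helper88.HG.pvr_const k e⁻¹) h
    rwa [hxe, map_inv₀, ← mul_assoc, inv_mul_cancel₀ he', one_mul] at h1

end lau

end

end Pool.Agent.PD37
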