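import Pool.Agent.Helper37.PD.PtsM
import Pool.Agent.Helper97.PD.Defs2

/-!
# Project PD: agreement of the section of a rational point with a branch point
-/

set_option autoImplicit false
set_option linter.unusedSectionVars false

namespace Pool.Agent.PD37

open VC Polynomial NumberField Filter Topology Pool.Agent.Helper91.Sect
open Pool.Agent.TW37
open Pool.Agent.PDL (IsBr KB1 KB2 IsRt1 Lev1 AgrAt OthL BrP dif)
open Pool.Agent.Helper88.HG (pvr tt)
open Pool.Agent.ML (HasMu)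

noncomputable section

/-! ## Principal units -/

section unit

variable {F : Type} [Field F] (W : ValuationSubring F)

theorem unit_val {R : F} (h : W.valuation (R - 1) < 1) : W.valuation R = 1 := by
  have h1 : R = (R - 1) + 1 := by ring
  rw [h1, Valuation.map_add_eq_of_lt_right _ (by rw [map_one]; exact h), map_one]

theorem unit_pow {R : F} (h : W.valuation (R - 1) < 1) (j : ℕ) : W.valuation (R ^ j - 1) < 1 := by
  induction j with
  | zero =>
    rw [pow_zero, sub_self, map_zero]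
    exact zero_lt_one
  | succ n ih =>
    have h1 : R ^ (n + 1) - 1 = R ^ n * (R - 1) + (R ^ n - 1) := by ring
    rw [h1]
    refine Valuation.map_add_lt _ ?_ ih
    rw [map_mul, map_pow, unit_val W h, one_pow, one_mul]
    exact h

theorem unit_inv {R : F} (h : W.valuation (R - 1) < 1) : W.valuation (R⁻¹ - 1) < 1 := by
  have hv := unit_val W h
  have hR : R ≠ 0 := by
    rintro rfl
    rw [map_zero] at hv
    exact zero_ne_one hv
  have h1 : R⁻¹ - 1 = -((R - 1) / R) := by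
    field_simp
    ring
  rw [h1, Valuation.map_neg, map_div₀, hv, div_one]
  exact h

theorem unit_zpow {R : F} (h : W.valuation (R - 1) < 1) (j : ℤ) :
    W.valuation (R ^ j - 1) < 1 := by
  obtain ⟨n, rfl | rfl⟩ := j.eq_nat_or_neg
  · rw [zpow_natCast]
    exact unit_pow W h n
  · rw [zpow_neg, zpow_natCast]
    exact unit_inv W (unit_pow W h n)

theorem bez_T {y X₁ B R : F} {ℓ : ℕ} {N s t : ℤ} (hN : N * s + ℓ * t = 1)
    (hX : X₁ ≠ 0) (hB : B ≠ 0) (hR : R ≠ 0) (hy : y ^ ℓ = B * X₁ ^ N * R) :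
    B ^ s * X₁ * (y ^ s * X₁ ^ t)⁻¹ ^ ℓ = R ^ (-s) := by
  have h1 : (y ^ s * X₁ ^ t) ^ ℓ = B ^ s * X₁ * R ^ s := by
    have h2 : (y ^ s) ^ ℓ = (y ^ ℓ) ^ s := by
      rw [← zpow_natCast, ← zpow_mul, mul_comm, zpow_mul, zpow_natCast]
    have h3 : (X₁ ^ N) ^ s * (X₁ ^ t) ^ ℓ = X₁ := by
      rw [← zpow_natCast (X₁ ^ t), ← zpow_mul, ← zpow_mul, ← zpow_add₀ hX, mul_comm t, hN,
        zpow_one]
    rw [mul_pow, h2, hy, mul_zpow, mul_zpow]
    linear_combination (B ^ s * R ^ s) * h3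
  rw [inv_pow, h1, zpow_neg]
  have h4 : B ^ s ≠ 0 := zpow_ne_zero _ hB
  have h5 : R ^ s ≠ 0 := zpow_ne_zero _ hR
  field_simp

end unit

section K

variable {k K : Type} [Field k] [CharZero k] [Field K] [Algebra k K]

/-- the value of a polynomial -/
theorem val_eval {F : Type} [Field F] [Algebra k F] {W : ValuationSubring F}
    (hW : ∀ c : k, algebraMap k F c ∈ W) {z : F} {b : k}
    (hz : W.valuation (z - algebraMap k F b) < 1) {g : k[X]} (hg : eval b g ≠ 0) :
    W.valuation (aeval z g / algebraMap k F (eval b g) - 1) < 1 := by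
  have hgF : algebraMap k F (eval b g) ≠ 0 := (_root_.map_ne_zero _).2 hg
  obtain ⟨q, hq⟩ : X - C b ∣ g - C (g.eval b) := X_sub_C_dvd_sub_C_eval
  have h1 : aeval z g - algebraMap k F (eval b g) = (z - algebraMap k F b) * aeval z q := by
    have h6 := congrArg (aeval z) hq
    rw [map_sub, aeval_C, map_mul, map_sub, aeval_X, aeval_C] at h6
    exact h6
  have h2 : z ∈ W := by
    have h3 := W.add_mem _ _ ((W.valuation_le_one_iff _).1 hz.le) (hW b)
    rwa [sub_add_cancel] at h3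
  have h3 : aeval z q ∈ W := by
    rw [aeval_eq_sum_range]
    refine W.toSubring.sum_mem fun i _ => ?_
    rw [Algebra.smul_def]
    exact W.mul_mem _ _ (hW _) (pow_mem h2 i)
  have h4 : W.valuation (algebraMap k F (eval b g))⁻¹ ≤ 1 := by
    rw [← map_inv₀ (algebraMap k F)]
    exact (W.valuation_le_one_iff _).2 (hW _)
  have h5 : aeval z g / algebraMap k F (eval b g) - 1 =
      (z - algebraMap k F b) * (aeval z q * (algebraMap k F (eval b g))⁻¹) := by
    rw [← mul_assoc, ← h1]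
    field_simp
  rw [h5, map_mul]
  refine mul_lt_one_of_nonneg_of_lt_one_left zero_le hz ?_
  rw [map_mul]
  exact mul_le_one₀ ((W.valuation_le_one_iff _).2 h3) zero_le h4

/-- the constants -/
def jj (x y : K) : kbar k K →+* KB2 k x y :=
  ((kbar k K).val : kbar k K →+* AlgebraicClosure K).codRestrict (KB2 k x y)
    (fun z => Subfield.subset_closure (Or.inl (mem_algebraicClosure_iff.1 z.2)))

theorem jj_coe (x y : K) (z : kbar k K) :
    ((jj x y z : KB2 k x y) : AlgebraicClosure K) = z := rfl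

theorem kb_x (x y : K) : algebraMap K (AlgebraicClosure K) x ∈ KB2 k x y :=
  Subfield.subset_closure (Or.inr (Or.inl rfl))

theorem kb_y (x y : K) : algebraMap K (AlgebraicClosure K) y ∈ KB2 k x y :=
  Subfield.subset_closure (Or.inr (Or.inr rfl))

theorem kb1_x (x : K) : algebraMap K (AlgebraicClosure K) x ∈ KB1 k x :=
  Subfield.subset_closure (Or.inr rfl)

theorem kb1_c (x : K) {z : AlgebraicClosure K} (hz : IsAlgebraic k z) : z ∈ KB1 k x :=
  Subfield.subset_closure (Or.inl hz)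

theorem lev1_c (x y : K) (ℓ : ℕ) {z : AlgebraicClosure K} (hz : IsAlgebraic k z) :
    z ∈ Lev1 k x y ℓ :=
  Subfield.subset_closure (Or.inl (Or.inl hz))

theorem lev1_x (x y : K) (ℓ : ℕ) : algebraMap K (AlgebraicClosure K) x ∈ Lev1 k x y ℓ :=
  Subfield.subset_closure (Or.inl (Or.inr (Or.inl rfl)))

theorem lev1_y (x y : K) (ℓ : ℕ) : algebraMap K (AlgebraicClosure K) y ∈ Lev1 k x y ℓ :=
  Subfield.subset_closure (Or.inl (Or.inr (Or.inr rfl)))

theorem lev1_k (x y : K) (ℓ : ℕ) (a : k) :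
    algebraMap K (AlgebraicClosure K) (algebraMap k K a) ∈ Lev1 k x y ℓ := by
  rw [← IsScalarTower.algebraMap_apply]
  exact lev1_c x y ℓ (isAlgebraic_algebraMap a)

theorem kb_eq {x y : K} {f : k[X]} {c : k} {ℓ : ℕ}
    (hxy : y ^ ℓ = algebraMap k K c * aeval x f) :
    (⟨_, kb_y x y⟩ : KB2 k x y) ^ ℓ = jj x y (algebraMap k (kbar k K) c) *
      eval₂ (jj x y) (⟨_, kb_x x y⟩ : KB2 k x y) (f.map (algebraMap k (kbar k K))) := by
  rw [eval₂_map]
  apply Subtype.ext
  have h1 : ((eval₂ ((jj x y).comp (algebraMap k (kbar k K))) (⟨_, kb_x x y⟩ : KB2 k x y) f :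
      KB2 k x y) : AlgebraicClosure K) = algebraMap K (AlgebraicClosure K) (aeval x f) := by
    have h2 := hom_eval₂ f ((jj x y).comp (algebraMap k (kbar k K))) (KB2 k x y).subtype
      ⟨_, kb_x x y⟩
    have h3 : (KB2 k x y).subtype.comp ((jj x y).comp (algebraMap k (kbar k K))) =
        algebraMap k (AlgebraicClosure K) := by
      ext a
      rfl
    rw [h3] at h2
    rw [← aeval_algebraMap_apply]
    exact h2
  show algebraMap K (AlgebraicClosure K) y ^ ℓ =
    algebraMap k (AlgebraicClosure K) c * ((eval₂ ((jj x y).comp (algebraMap k (kbar k K)))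
      (⟨_, kb_x x y⟩ : KB2 k x y) f : KB2 k x y) : AlgebraicClosure K)
  rw [h1, ← map_pow, hxy, map_mul, ← IsScalarTower.algebraMap_apply]

theorem lev1_of {x y : K} {ℓ : ℕ} {w : AlgebraicClosure K} (u : KB2 k x y)
    (hu : (u : AlgebraicClosure K) = w ^ ℓ) (hu1 : (u : AlgebraicClosure K) ∈ KB1 k x)
    (h : ∀ P : ValuationSubring (KB2 k x y), (∀ a : kbar k K, jj x y a ∈ P) →
      ∃ z : KB2 k x y, P.valuation u = P.valuation z ^ ℓ) : w ∈ Lev1 k x y ℓ := by
  refine Subfield.subset_closure (Or.inr ⟨u, hu, hu1, fun P hP => h P fun a => hP _ ?_⟩)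
  rw [jj_coe]
  exact mem_algebraicClosure_iff.1 a.2

section lev

variable {x y : K} {f : k[X]} {c : k} {ℓ : ℕ} (hf : f ≠ 0) (hc : c ≠ 0) (hℓ : ℓ.Prime)
    (hxy : y ^ ℓ = algebraMap k K c * aeval x f)

include hf hc hℓ hxy

/-- infinity is a branch point -/
theorem lev_A (hn : ¬ ℓ ∣ f.natDegree) {e : k} (he : e ≠ 0) {ρ : kbar k K} (hρ : IsBr ℓ f ρ)
    {w : AlgebraicClosure K} (hw : w ^ ℓ = algebraMap k (AlgebraicClosure K) e *
      (algebraMap K (AlgebraicClosure K) x - ρ)) : w ∈ Lev1 k x y ℓ := by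
  have hinj : Function.Injective (algebraMap k (kbar k K)) := (algebraMap k (kbar k K)).injective
  refine lev1_of (jj x y (algebraMap k (kbar k K) e) * (⟨_, kb_x x y⟩ - jj x y ρ)) ?_ ?_ ?_
  · rw [hw]
    rfl
  · exact mul_mem (kb1_c x (isAlgebraic_algebraMap e))
      (sub_mem (kb1_x x) (kb1_c x (mem_algebraicClosure_iff.1 ρ.2)))
  · intro P hP
    exact val_A P (jj x y) hP ((Polynomial.map_ne_zero_iff hinj).2 hf)
      ((map_ne_zero_iff _ hinj).2 hc) hℓ (by rwa [natDegree_map]) ((map_ne_zero_iff _ hinj).2 he)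
      hρ (kb_eq hxy)

/-- two finite branch points -/
theorem lev_B (hx : Transcendental k x) {a : k} (ha : ¬ ℓ ∣ f.rootMultiplicity a) {e : k}
    (he : e ≠ 0) {ρ : kbar k K} (hρ : IsBr ℓ f ρ) (hρa : ρ ≠ algebraMap k (kbar k K) a)
    {w : AlgebraicClosure K} (hw : w ^ ℓ = algebraMap k (AlgebraicClosure K) e *
      (algebraMap K (AlgebraicClosure K) (x - algebraMap k K a)⁻¹ -
        ((ρ - algebraMap k (kbar k K) a)⁻¹ : kbar k K))) : w ∈ Lev1 k x y ℓ := by
  have hinj : Function.Injective (algebraMap k (kbar k K)) := (algebraMap k (kbar k K)).injective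
  have hxa : x - algebraMap k K a ≠ 0 := by
    intro h
    exact hx (by rw [sub_eq_zero.1 h]; exact isAlgebraic_algebraMap a)
  have hcoe : (((⟨_, kb_x x y⟩ : KB2 k x y) - jj x y (algebraMap k (kbar k K) a) : KB2 k x y) :
      AlgebraicClosure K) = algebraMap K (AlgebraicClosure K) (x - algebraMap k K a) := by
    rw [map_sub, ← IsScalarTower.algebraMap_apply]
    rfl
  have hxa' : (⟨_, kb_x x y⟩ : KB2 k x y) - jj x y (algebraMap k (kbar k K) a) ≠ 0 := by
    intro h
    rw [h] at hcoe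
    exact hxa ((_root_.map_eq_zero _).1 hcoe.symm)
  refine lev1_of (jj x y (algebraMap k (kbar k K) e) *
    ((⟨_, kb_x x y⟩ - jj x y (algebraMap k (kbar k K) a))⁻¹ -
      jj x y (ρ - algebraMap k (kbar k K) a)⁻¹)) ?_ ?_ ?_
  · rw [hw, map_inv₀ (algebraMap K (AlgebraicClosure K)) (x - algebraMap k K a), ← hcoe]
    rfl
  · have h1 : algebraMap K (AlgebraicClosure K) (x - algebraMap k K a) ∈ KB1 k x := by
      rw [map_sub, ← IsScalarTower.algebraMap_apply]
      exact sub_mem (kb1_x x) (kb1_c x (isAlgebraic_algebraMap a))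
    rw [← hcoe] at h1
    exact mul_mem (kb1_c x (isAlgebraic_algebraMap e)) (sub_mem (inv_mem h1)
      (kb1_c x (mem_algebraicClosure_iff.1 (ρ - algebraMap k (kbar k K) a)⁻¹.2)))
  · intro P hP
    refine val_B P (jj x y) hP ((Polynomial.map_ne_zero_iff hinj).2 hf)
      ((map_ne_zero_iff _ hinj).2 hc) hℓ ((map_ne_zero_iff _ hinj).2 he) ?_ hρ hρa hxa' (kb_eq hxy)
    rwa [← eq_rootMultiplicity_map hinj]

/-- a finite branch point and infinity -/
theorem lev_C (hn : ¬ ℓ ∣ f.natDegree) {a : k} (ha : ¬ ℓ ∣ f.rootMultiplicity a) {e : k}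
    (he : e ≠ 0) {w : AlgebraicClosure K} (hw : w ^ ℓ = algebraMap k (AlgebraicClosure K) e *
      (algebraMap K (AlgebraicClosure K) (x - algebraMap k K a)⁻¹ - ((0 : kbar k K) :
        AlgebraicClosure K))) : w ∈ Lev1 k x y ℓ := by
  have hinj : Function.Injective (algebraMap k (kbar k K)) := (algebraMap k (kbar k K)).injective
  have hcoe : (((⟨_, kb_x x y⟩ : KB2 k x y) - jj x y (algebraMap k (kbar k K) a) : KB2 k x y) :
      AlgebraicClosure K) = algebraMap K (AlgebraicClosure K) (x - algebraMap k K a) := by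
    rw [map_sub, ← IsScalarTower.algebraMap_apply]
    rfl
  have h0 : ((0 : kbar k K) : AlgebraicClosure K) = 0 := rfl
  rw [h0, sub_zero] at hw
  refine lev1_of (jj x y (algebraMap k (kbar k K) e) *
    (⟨_, kb_x x y⟩ - jj x y (algebraMap k (kbar k K) a))⁻¹) ?_ ?_ ?_
  · rw [hw, map_inv₀, ← hcoe]
    rfl
  · have h1 : algebraMap K (AlgebraicClosure K) (x - algebraMap k K a) ∈ KB1 k x := by
      rw [map_sub, ← IsScalarTower.algebraMap_apply]
      exact sub_mem (kb1_x x) (kb1_c x (isAlgebraic_algebraMap a))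
    rw [← hcoe] at h1
    exact mul_mem (kb1_c x (isAlgebraic_algebraMap e)) (inv_mem h1)
  · intro P hP
    refine val_C P (jj x y) hP ((Polynomial.map_ne_zero_iff hinj).2 hf)
      ((map_ne_zero_iff _ hinj).2 hc) hℓ (by rwa [natDegree_map]) ((map_ne_zero_iff _ hinj).2 he)
      ?_ (kb_eq hxy)
    rwa [← eq_rootMultiplicity_map hinj]

/-- the function `T` at infinity -/
theorem T_inf (hx : Transcendental k x) (hn : ¬ ℓ ∣ f.natDegree) :
    ∃ (e : k) (T : K), e ≠ 0 ∧ T ≠ 0 ∧ algebraMap K (AlgebraicClosure K) T ∈ Lev1 k x y ℓ ∧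
      ∀ W : ValuationSubring (AlgebraicClosure K), (∀ z, IsAlgebraic k z → z ∈ W) →
        algebraMap K (AlgebraicClosure K) x ∉ W →
        W.valuation (algebraMap K (AlgebraicClosure K) (algebraMap k K e * x * T⁻¹ ^ ℓ) - 1) < 1 := by
  obtain ⟨n, hn'⟩ : ∃ n, n = f.natDegree := ⟨_, rfl⟩
  rw [← hn'] at hn
  have hcop : Nat.Coprime n ℓ := ((Nat.Prime.coprime_iff_not_dvd hℓ).2 hn).symm
  have hlc : f.leadingCoeff ≠ 0 := leadingCoeff_ne_zero.2 hf
  have hbez := Nat.gcd_eq_gcd_ab n ℓ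
  rw [hcop, Nat.cast_one] at hbez
  have hx0 : x ≠ 0 := by
    rintro rfl
    exact hx isAlgebraic_zero
  have hfx : aeval x f ≠ 0 := fun h => hx ⟨f, hf, h⟩
  have hy0 : y ≠ 0 := by
    rintro rfl
    rw [zero_pow hℓ.ne_zero, eq_comm] at hxy
    exact mul_ne_zero ((_root_.map_ne_zero _).2 hc) hfx hxy
  refine ⟨(c * f.leadingCoeff) ^ Nat.gcdA n ℓ, y ^ Nat.gcdA n ℓ * x ^ Nat.gcdB n ℓ,
    zpow_ne_zero _ (mul_ne_zero hc hlc), mul_ne_zero (zpow_ne_zero _ hy0) (zpow_ne_zero _ hx0),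
    ?_, fun W hWc hxW => ?_⟩
  · rw [map_mul, map_zpow₀, map_zpow₀]
    exact mul_mem (zpow_mem (lev1_y x y ℓ) _) (zpow_mem (lev1_x x y ℓ) _)
  have hW : ∀ c : k, algebraMap k (AlgebraicClosure K) c ∈ W := fun c =>
    hWc _ (isAlgebraic_algebraMap c)
  have hu : W.valuation (algebraMap K (AlgebraicClosure K) x)⁻¹ < 1 := by
    rw [← ValuationSubring.mem_nonunits_iff, ValuationSubring.mem_nonunits_iff_or]
    right
    rw [inv_inv]
    exact hxW
  have hr0 : eval 0 f.reverse = f.leadingCoeff := by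
    rw [← coeff_zero_eq_eval_zero, coeff_zero_reverse]
  have h1 := val_eval hW (z := (algebraMap K (AlgebraicClosure K) x)⁻¹) (b := 0) (by
    rwa [map_zero, sub_zero]) (g := f.reverse) (by rwa [hr0])
  rw [hr0] at h1
  obtain ⟨R, hR⟩ : ∃ R : AlgebraicClosure K, R =
    aeval (algebraMap K (AlgebraicClosure K) x)⁻¹ f.reverse /
      algebraMap k (AlgebraicClosure K) f.leadingCoeff := ⟨_, rfl⟩
  rw [← hR] at h1
  have hR0 : R ≠ 0 := by
    rintro h0
    have h2 := unit_val W h1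
    rw [h0, map_zero] at h2
    exact zero_ne_one h2
  have hxC0 : algebraMap K (AlgebraicClosure K) x ≠ 0 := (_root_.map_ne_zero _).2 hx0
  have hlcC : algebraMap k (AlgebraicClosure K) f.leadingCoeff ≠ 0 :=
    (_root_.map_ne_zero _).2 hlc
  have h2 : algebraMap K (AlgebraicClosure K) y ^ ℓ =
      algebraMap k (AlgebraicClosure K) (c * f.leadingCoeff) *
        algebraMap K (AlgebraicClosure K) x ^ ((n : ℕ) : ℤ) * R := by
    have h3 := Pool.Agent.HG.eval_reverse f hxC0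
    rw [← hn'] at h3
    rw [← map_pow, hxy, map_mul, ← aeval_algebraMap_apply, ← h3,
      ← IsScalarTower.algebraMap_apply, zpow_natCast, hR, map_mul]
    field_simp
  have h3 := bez_T hbez.symm hxC0 ((_root_.map_ne_zero (algebraMap k (AlgebraicClosure K))).2
    (mul_ne_zero hc hlc)) hR0 h2
  have h4 : algebraMap K (AlgebraicClosure K) (algebraMap k K ((c * f.leadingCoeff) ^
      Nat.gcdA n ℓ) * x * (y ^ Nat.gcdA n ℓ * x ^ Nat.gcdB n ℓ)⁻¹ ^ ℓ) = R ^ (-Nat.gcdA n ℓ) := by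
    rw [← h3, map_mul, map_mul, map_pow, map_inv₀, map_mul, map_zpow₀, map_zpow₀,
      ← IsScalarTower.algebraMap_apply, map_zpow₀, map_zpow₀]
  rw [h4]
  exact unit_zpow W h1 _

/-- the function `T` at the branch point `a` -/
theorem T_a (hx : Transcendental k x) {a : k} (ha : ¬ ℓ ∣ f.rootMultiplicity a) :
    ∃ (e : k) (T : K), e ≠ 0 ∧ T ≠ 0 ∧ algebraMap K (AlgebraicClosure K) T ∈ Lev1 k x y ℓ ∧
      ∀ W : ValuationSubring (AlgebraicClosure K), (∀ z, IsAlgebraic k z → z ∈ W) →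
        algebraMap K (AlgebraicClosure K) (x - algebraMap k K a)⁻¹ ∉ W →
        W.valuation (algebraMap K (AlgebraicClosure K) (algebraMap k K e *
          (x - algebraMap k K a)⁻¹ * T⁻¹ ^ ℓ) - 1) < 1 := by
  obtain ⟨q, hq, hnd⟩ := exists_eq_pow_rootMultiplicity_mul_and_not_dvd f hf a
  obtain ⟨m, hm⟩ : ∃ m, m = f.rootMultiplicity a := ⟨_, rfl⟩
  rw [← hm] at hq ha
  have hqa : eval a q ≠ 0 := fun h0 => hnd (dvd_iff_isRoot.2 h0)
  have hcop : Nat.Coprime m ℓ := ((Nat.Prime.coprime_iff_not_dvd hℓ).2 ha).symm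
  have hbez := Nat.gcd_eq_gcd_ab m ℓ
  rw [hcop, Nat.cast_one] at hbez
  have hx0 : x - algebraMap k K a ≠ 0 := by
    intro h
    exact hx (by rw [sub_eq_zero.1 h]; exact isAlgebraic_algebraMap a)
  have hfx : aeval x f ≠ 0 := fun h => hx ⟨f, hf, h⟩
  have hy0 : y ≠ 0 := by
    rintro rfl
    rw [zero_pow hℓ.ne_zero, eq_comm] at hxy
    exact mul_ne_zero ((_root_.map_ne_zero _).2 hc) hfx hxy
  refine ⟨(c * eval a q) ^ (-Nat.gcdA m ℓ), y ^ (-Nat.gcdA m ℓ) *
    (x - algebraMap k K a)⁻¹ ^ Nat.gcdB m ℓ, zpow_ne_zero _ (mul_ne_zero hc hqa),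
    mul_ne_zero (zpow_ne_zero _ hy0) (zpow_ne_zero _ (inv_ne_zero hx0)), ?_, fun W hWc hxW => ?_⟩
  · rw [map_mul, map_zpow₀, map_zpow₀, map_inv₀, map_sub]
    exact mul_mem (zpow_mem (lev1_y x y ℓ) _) (zpow_mem (inv_mem (sub_mem (lev1_x x y ℓ)
      (lev1_k x y ℓ a))) _)
  have hW : ∀ c : k, algebraMap k (AlgebraicClosure K) c ∈ W := fun c =>
    hWc _ (isAlgebraic_algebraMap c)
  have hu : W.valuation (algebraMap K (AlgebraicClosure K) x -
      algebraMap k (AlgebraicClosure K) a) < 1 := by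
    rw [← ValuationSubring.mem_nonunits_iff, ValuationSubring.mem_nonunits_iff_or]
    right
    rwa [map_inv₀, map_sub, ← IsScalarTower.algebraMap_apply] at hxW
  have h1 := val_eval hW hu hqa
  obtain ⟨R, hR⟩ : ∃ R : AlgebraicClosure K, R =
    aeval (algebraMap K (AlgebraicClosure K) x) q /
      algebraMap k (AlgebraicClosure K) (eval a q) := ⟨_, rfl⟩
  rw [← hR] at h1
  have hR0 : R ≠ 0 := by
    rintro h0
    have h2 := unit_val W h1
    rw [h0, map_zero] at h2
    exact zero_ne_one h2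
  have hxC0 : algebraMap K (AlgebraicClosure K) (x - algebraMap k K a)⁻¹ ≠ 0 :=
    (_root_.map_ne_zero _).2 (inv_ne_zero hx0)
  have hqaC : algebraMap k (AlgebraicClosure K) (eval a q) ≠ 0 :=
    (_root_.map_ne_zero _).2 hqa
  have h2 : algebraMap K (AlgebraicClosure K) y ^ ℓ =
      algebraMap k (AlgebraicClosure K) (c * eval a q) *
        algebraMap K (AlgebraicClosure K) (x - algebraMap k K a)⁻¹ ^ (-((m : ℕ) : ℤ)) * R := by
    have h3 : aeval (algebraMap K (AlgebraicClosure K) x) f =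
        (algebraMap K (AlgebraicClosure K) (x - algebraMap k K a)) ^ m *
          aeval (algebraMap K (AlgebraicClosure K) x) q := by
      rw [hq, map_mul, map_pow, map_sub, aeval_X, aeval_C, map_sub,
        ← IsScalarTower.algebraMap_apply]
    rw [← map_pow, hxy, map_mul, ← aeval_algebraMap_apply, h3,
      ← IsScalarTower.algebraMap_apply, zpow_neg, zpow_natCast, hR, map_mul, map_inv₀, inv_pow,
      inv_inv]
    field_simp
  have h3 := bez_T (N := -((m : ℕ) : ℤ)) (s := -Nat.gcdA m ℓ) (t := Nat.gcdB m ℓ) (by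
    rw [neg_mul_neg]
    exact hbez.symm) hxC0 ((_root_.map_ne_zero (algebraMap k (AlgebraicClosure K))).2
    (mul_ne_zero hc hqa)) hR0 h2
  have h4 : algebraMap K (AlgebraicClosure K) (algebraMap k K ((c * eval a q) ^
      (-Nat.gcdA m ℓ)) * (x - algebraMap k K a)⁻¹ * (y ^ (-Nat.gcdA m ℓ) *
        (x - algebraMap k K a)⁻¹ ^ Nat.gcdB m ℓ)⁻¹ ^ ℓ) = R ^ (-(-Nat.gcdA m ℓ)) := by
    rw [← h3, map_mul, map_mul, map_pow, map_inv₀ (algebraMap K (AlgebraicClosure K)) (_ * _),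
      map_mul, map_zpow₀, map_zpow₀, ← IsScalarTower.algebraMap_apply, map_zpow₀, map_zpow₀]
  rw [h4]
  exact unit_zpow W h1 _

end lev

end K

end

end Pool.Agent.PD37
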