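import Pool.Agent.Helper37.PD.PtsN

/-!
# Project PD: the rational points of almost all `y ^ ℓ = c f(x)`
-/

set_option autoImplicit false
set_option linter.unusedSectionVars false

namespace Pool.Agent.PD37

open VC Polynomial NumberField Filter Topology Pool.Agent.Helper91.Sect
open Pool.Agent.TW37
open Pool.Agent.PDL (IsBr KB1 KB2 IsRt1 Lev1 AgrAt OthL BrP dif)
open Pool.Agent.Helper88.HG (pvr tt)
open Pool.Agent.ML (HasMu)

noncomputable section

/-- `x₀ - p = t z ^ ℓ (P - p)`, `z ∈ k(p)`, for a rational branch point `P`, some `t ∈ k` and all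
branch points `p ≠ P` (differences with infinity are `1`). -/
def OnCfL {k : Type} [Field k] (ℓ : ℕ) (f : k[X]) (x₀ : k) : Prop :=
  ∃ P : Option k, BrP ℓ f (P.map (algebraMap k (AlgebraicClosure k))) ∧ ∃ t : k,
    ∀ p : Option (AlgebraicClosure k), BrP ℓ f p →
      p ≠ P.map (algebraMap k (AlgebraicClosure k)) →
      ∃ z ∈ IntermediateField.adjoin k {e : AlgebraicClosure k | p = some e},
        dif (some (algebraMap k (AlgebraicClosure k) x₀)) p =
          algebraMap k (AlgebraicClosure k) t * z ^ ℓ *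
            dif (P.map (algebraMap k (AlgebraicClosure k))) p

section K

variable {k K : Type} [Field k] [CharZero k] [Field K] [Algebra k K]

theorem val_inv_sub {V : ValuationSubring K} (hk : ∀ c : k, algebraMap k K c ∈ V) {x : K}
    {x₀ a : k} (hx₀ : V.valuation (x - algebraMap k K x₀) < 1) (ha : x₀ ≠ a) :
    V.valuation ((x - algebraMap k K a)⁻¹ - algebraMap k K (x₀ - a)⁻¹) < 1 := by
  have h0 : x₀ - a ≠ 0 := sub_ne_zero.2 ha
  have h1 : V.valuation (algebraMap k K (x₀ - a)) = 1 := const_one V (algebraMap k K) hk h0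
  have h2 : V.valuation (x - algebraMap k K a) = 1 := by
    have h3 : x - algebraMap k K a = (x - algebraMap k K x₀) + algebraMap k K (x₀ - a) := by
      rw [map_sub]
      ring
    rw [h3, Valuation.map_add_eq_of_lt_right _ (by rw [h1]; exact hx₀), h1]
  have h3 : x - algebraMap k K a ≠ 0 := by
    intro h
    rw [h, map_zero] at h2
    exact zero_ne_one h2
  have h4 : algebraMap k K (x₀ - a) ≠ 0 := (_root_.map_ne_zero _).2 h0
  have h5 : (x - algebraMap k K a)⁻¹ - algebraMap k K (x₀ - a)⁻¹ =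
      -((x - algebraMap k K x₀) / ((x - algebraMap k K a) * algebraMap k K (x₀ - a))) := by
    rw [map_inv₀]
    rw [map_sub] at h4 ⊢
    field_simp
    ring
  rw [h5, Valuation.map_neg, map_div₀, map_mul, h1, h2, mul_one, div_one]
  exact hx₀

/-- a place of `K` above the rational point: over `kbar` in `K` -/
theorem pt_genL {ℓ : ℕ} (hℓ : ℓ.Prime) (hμ : HasMu k ℓ) (V : ValuationSubring K)
    (hk : ∀ c : k, algebraMap k K c ∈ V)
    (hres : ∀ z ∈ V, ∃ c : k, V.valuation (z - algebraMap k K c) < 1) {x y : K} {f : k[X]} {c : k}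
    (hf : f ≠ 0) (hc : c ≠ 0) (hx : Transcendental k x)
    (hxy : y ^ ℓ = algebraMap k K c * aeval x f)
    (hA : ∀ s : GaloisSection k K, (¬ ℓ ∣ f.natDegree ∧ AgrAt s x y ℓ x) ∨
      ∃ α : k, ¬ ℓ ∣ f.rootMultiplicity α ∧ AgrAt s x y ℓ (x - algebraMap k K α)⁻¹) {x₀ : k}
    (hfx : eval x₀ f ≠ 0) (hx₀ : V.valuation (x - algebraMap k K x₀) < 1) :
    (¬ ℓ ∣ f.natDegree ∧ ∃ e : k, e ≠ 0 ∧ ∀ ρ : kbar k K, IsBr ℓ f ρ →
      ∃ d ∈ IntermediateField.adjoin k {ρ}, d ^ ℓ = algebraMap k (kbar k K) e *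
        (algebraMap k (kbar k K) x₀ - ρ)) ∨
    ∃ a : k, ¬ ℓ ∣ f.rootMultiplicity a ∧ ∃ e : k, e ≠ 0 ∧
      (∀ ρ : kbar k K, IsBr ℓ f ρ → ρ ≠ algebraMap k (kbar k K) a →
        ∃ d ∈ IntermediateField.adjoin k {ρ}, d ^ ℓ = algebraMap k (kbar k K) e *
          (algebraMap k (kbar k K) (x₀ - a)⁻¹ - (ρ - algebraMap k (kbar k K) a)⁻¹)) ∧
      (¬ ℓ ∣ f.natDegree → ∃ d : k, d ^ ℓ = e * (x₀ - a)⁻¹) := by
  obtain ⟨ζ, hζ⟩ := hμ
  obtain ⟨s, W, hW, hVW, hs⟩ := Pool.Agent.HG.section_of_place' V hk hres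
  rcases hA s with ⟨hn, hAs⟩ | ⟨a, ha, hAs⟩
  · left
    refine ⟨hn, ?_⟩
    obtain ⟨e, T, he, hT0, hTL, hT⟩ := T_inf hf hc hℓ hxy hx hn
    refine ⟨e, he, fun ρ hρ => ?_⟩
    obtain ⟨w, hw⟩ : ∃ w : AlgebraicClosure K, w ^ ℓ = algebraMap k (AlgebraicClosure K) e *
        (algebraMap K (AlgebraicClosure K) x - ρ) := IsAlgClosed.exists_pow_nat_eq _ hℓ.pos
    obtain ⟨hwK, hfix⟩ := fix_abs hℓ hζ hT0 hTL (fun z hz => lev1_c x y ℓ hz) hAs hT
      (lev_A hf hc hℓ hxy hn he hρ hw) hw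
    obtain ⟨d, hd, hdm⟩ := val_abs hℓ hζ hW hs (x₁ := x) (a₁ := x₀) (hVW _ hx₀) hw hfix
    exact ⟨d, hdm, hd⟩
  · right
    have hxa : x₀ ≠ a := by
      rintro rfl
      apply ha
      rw [rootMultiplicity_eq_zero (fun h => hfx h)]
      exact dvd_zero _
    refine ⟨a, ha, ?_⟩
    obtain ⟨e, T, he, hT0, hTL, hT⟩ := T_a hf hc hℓ hxy hx ha
    have hval : W.valuation (algebraMap K (AlgebraicClosure K) ((x - algebraMap k K a)⁻¹ -
        algebraMap k K (x₀ - a)⁻¹)) < 1 := hVW _ (val_inv_sub hk hx₀ hxa)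
    refine ⟨e, he, fun ρ hρ hρa => ?_, fun hn => ?_⟩
    · obtain ⟨w, hw⟩ : ∃ w : AlgebraicClosure K, w ^ ℓ = algebraMap k (AlgebraicClosure K) e *
        (algebraMap K (AlgebraicClosure K) (x - algebraMap k K a)⁻¹ -
          ((ρ - algebraMap k (kbar k K) a)⁻¹ : kbar k K)) :=
        IsAlgClosed.exists_pow_nat_eq _ hℓ.pos
      obtain ⟨hwK, hfix⟩ := fix_abs hℓ hζ hT0 hTL (fun z hz => lev1_c x y ℓ hz) hAs hT
        (lev_B hf hc hℓ hxy hx ha he hρ hρa hw) hw
      obtain ⟨d, hd, hdm⟩ := val_abs hℓ hζ hW hs (x₁ := (x - algebraMap k K a)⁻¹)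
        (a₁ := (x₀ - a)⁻¹) hval hw hfix
      refine ⟨d, ?_, hd⟩
      refine (IntermediateField.adjoin_simple_le_iff.2 ?_) hdm
      exact inv_mem (sub_mem (IntermediateField.mem_adjoin_simple_self k ρ)
        (IntermediateField.algebraMap_mem _ a))
    · obtain ⟨w, hw⟩ : ∃ w : AlgebraicClosure K, w ^ ℓ = algebraMap k (AlgebraicClosure K) e *
        (algebraMap K (AlgebraicClosure K) (x - algebraMap k K a)⁻¹ - ((0 : kbar k K) :
          AlgebraicClosure K)) := IsAlgClosed.exists_pow_nat_eq _ hℓ.pos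
      obtain ⟨hwK, hfix⟩ := fix_abs hℓ hζ hT0 hTL (fun z hz => lev1_c x y ℓ hz) hAs hT
        (lev_C hf hc hℓ hxy hn ha he hw) hw
      obtain ⟨d, hd, hdm⟩ := val_abs hℓ hζ hW hs (x₁ := (x - algebraMap k K a)⁻¹)
        (a₁ := (x₀ - a)⁻¹) hval hw hfix
      rw [IntermediateField.adjoin_zero, IntermediateField.mem_bot] at hdm
      obtain ⟨d', rfl⟩ := hdm
      refine ⟨d', (algebraMap k (kbar k K)).injective ?_⟩
      rw [map_pow, map_mul]
      rw [sub_zero] at hd
      exact hd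

/-- the transport of the branch points -/
theorem isBr_map {E F : Type} [Field E] [Field F] [Algebra k E] [Algebra k F] (φ : E ≃ₐ[k] F)
    {ℓ : ℕ} {f : k[X]} {θ : E} (h : IsBr ℓ f θ) : IsBr ℓ f (φ θ) := by
  unfold IsBr at h ⊢
  have h1 : f.map (algebraMap k F) = (f.map (algebraMap k E)).map (φ : E →+* F) := by
    rw [Polynomial.map_map]
    congr 1
    ext a
    exact (φ.commutes a).symm
  rw [h1]
  have h2 := eq_rootMultiplicity_map (p := f.map (algebraMap k E)) (f := (φ : E →+* F))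
    φ.injective θ
  rw [h2] at h
  exact h

theorem adj_map {E F : Type} [Field E] [Field F] [Algebra k E] [Algebra k F] (φ : E ≃ₐ[k] F)
    {θ : E} {d : F} (h : d ∈ IntermediateField.adjoin k {φ θ}) :
    φ.symm d ∈ IntermediateField.adjoin k {θ} := by
  have h1 : (IntermediateField.adjoin k {θ}).map (φ : E →ₐ[k] F) =
      IntermediateField.adjoin k {φ θ} := by
    rw [IntermediateField.adjoin_map, Set.image_singleton]
    rfl
  rw [← h1] at h
  obtain ⟨z, hz, rfl⟩ := h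
  show φ.symm (φ z) ∈ IntermediateField.adjoin k {θ}
  rw [AlgEquiv.symm_apply_apply]
  exact hz

theorem adj_none {E : Type} [Field E] [Algebra k E] {z : E}
    (hz : z ∈ IntermediateField.adjoin k {e : E | (none : Option E) = some e}) :
    ∃ d : k, algebraMap k E d = z := by
  have h1 : {e : E | (none : Option E) = some e} = ∅ := by
    ext e
    simp
  rw [h1, IntermediateField.adjoin_empty, IntermediateField.mem_bot] at hz
  exact hz

theorem adj_some {E : Type} [Field E] [Algebra k E] {θ z : E}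
    (hz : z ∈ IntermediateField.adjoin k {θ}) :
    z ∈ IntermediateField.adjoin k {e : E | (some θ : Option E) = some e} := by
  have h1 : {e : E | (some θ : Option E) = some e} = {θ} := by
    ext e
    simp [eq_comm]
  rw [h1]
  exact hz

/-- the points of the fixed curves -/
theorem onCf_of {ℓ : ℕ} {f : k[X]} {x₀ : k} (hfx : eval x₀ f ≠ 0)
    (h : (¬ ℓ ∣ f.natDegree ∧ ∃ e : k, e ≠ 0 ∧ ∀ ρ : kbar k K, IsBr ℓ f ρ →
      ∃ d ∈ IntermediateField.adjoin k {ρ}, d ^ ℓ = algebraMap k (kbar k K) e *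
        (algebraMap k (kbar k K) x₀ - ρ)) ∨
    ∃ a : k, ¬ ℓ ∣ f.rootMultiplicity a ∧ ∃ e : k, e ≠ 0 ∧
      (∀ ρ : kbar k K, IsBr ℓ f ρ → ρ ≠ algebraMap k (kbar k K) a →
        ∃ d ∈ IntermediateField.adjoin k {ρ}, d ^ ℓ = algebraMap k (kbar k K) e *
          (algebraMap k (kbar k K) (x₀ - a)⁻¹ - (ρ - algebraMap k (kbar k K) a)⁻¹)) ∧
      (¬ ℓ ∣ f.natDegree → ∃ d : k, d ^ ℓ = e * (x₀ - a)⁻¹)) : OnCfL ℓ f x₀ := by
  let φ : AlgebraicClosure k ≃ₐ[k] kbar k K := IsAlgClosure.equiv k (AlgebraicClosure k) (kbar k K)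
  have hinj : Function.Injective (algebraMap k (AlgebraicClosure k)) :=
    (algebraMap k (AlgebraicClosure k)).injective
  rcases h with ⟨hn, e, he, h⟩ | ⟨a, ha, e, he, h, hinf⟩
  · refine ⟨none, hn, e⁻¹, fun p hp hpP => ?_⟩
    rcases p with _ | θ
    · exact absurd rfl hpP
    obtain ⟨d, hdm, hd⟩ := h (φ θ) (isBr_map φ hp)
    refine ⟨φ.symm d, adj_some (adj_map φ hdm), ?_⟩
    have h1 := congrArg φ.symm hd
    rw [map_pow, map_mul, map_sub, AlgEquiv.commutes, AlgEquiv.commutes,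
      AlgEquiv.symm_apply_apply] at h1
    have he' : algebraMap k (AlgebraicClosure k) e ≠ 0 := (_root_.map_ne_zero _).2 he
    show algebraMap k (AlgebraicClosure k) x₀ - θ = algebraMap k (AlgebraicClosure k) e⁻¹ *
      φ.symm d ^ ℓ * 1
    rw [h1, map_inv₀]
    field_simp
  · have hxa : x₀ ≠ a := by
      rintro rfl
      apply ha
      rw [rootMultiplicity_eq_zero (fun h => hfx h)]
      exact dvd_zero _
    have hxa0 : x₀ - a ≠ 0 := sub_ne_zero.2 hxa
    have he' : algebraMap k (AlgebraicClosure k) e ≠ 0 := (_root_.map_ne_zero _).2 he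
    have hxa' : algebraMap k (AlgebraicClosure k) (x₀ - a) ≠ 0 := (_root_.map_ne_zero _).2 hxa0
    refine ⟨some a, ?_, (x₀ - a) * e⁻¹, fun p hp hpP => ?_⟩
    · show ¬ ℓ ∣ (f.map (algebraMap k (AlgebraicClosure k))).rootMultiplicity
        (algebraMap k (AlgebraicClosure k) a)
      rwa [← eq_rootMultiplicity_map hinj]
    rcases p with _ | θ
    · obtain ⟨d, hd⟩ := hinf hp
      refine ⟨algebraMap k (AlgebraicClosure k) d, IntermediateField.algebraMap_mem _ d, ?_⟩
      show (1 : AlgebraicClosure k) = algebraMap k (AlgebraicClosure k) ((x₀ - a) * e⁻¹) *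
        algebraMap k (AlgebraicClosure k) d ^ ℓ * 1
      rw [← map_pow, hd, mul_one, ← map_mul, ← map_one (algebraMap k (AlgebraicClosure k))]
      congr 1
      field_simp
    · have hθa : φ θ ≠ algebraMap k (kbar k K) a := by
        intro h1
        apply hpP
        have h2 := congrArg φ.symm h1
        rw [AlgEquiv.symm_apply_apply, AlgEquiv.commutes] at h2
        rw [h2]
        rfl
      obtain ⟨d, hdm, hd⟩ := h (φ θ) (isBr_map φ hp) hθa
      refine ⟨φ.symm d, adj_some (adj_map φ hdm), ?_⟩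
      have h1 := congrArg φ.symm hd
      rw [map_pow, map_mul, map_sub, AlgEquiv.commutes, AlgEquiv.commutes, map_inv₀ φ.symm,
        map_sub φ.symm, AlgEquiv.symm_apply_apply, AlgEquiv.commutes] at h1
      have hθa' : θ - algebraMap k (AlgebraicClosure k) a ≠ 0 := by
        intro h2
        apply hpP
        rw [sub_eq_zero.1 h2]
        rfl
      show algebraMap k (AlgebraicClosure k) x₀ - θ =
        algebraMap k (AlgebraicClosure k) ((x₀ - a) * e⁻¹) * φ.symm d ^ ℓ *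
          (algebraMap k (AlgebraicClosure k) a - θ)
      rw [h1, map_mul, map_inv₀, map_inv₀]
      rw [map_sub] at hxa' ⊢
      field_simp
      ring

end K

section final

variable {k : Type} [Field k] [NumberField k]

/-- the rational points -/
theorem pt_OnL {ℓ : ℕ} (hℓ : ℓ.Prime) (hμ : HasMu k ℓ) {f : k[X]} {c : k} (hc : c ≠ 0)
    (hO : ¬ OthL f ℓ c) {x₀ y₀ : k} (hP : y₀ ^ ℓ = c * eval x₀ f) (hy : y₀ ≠ 0) :
    OnCfL ℓ f x₀ := by
  have hfx : eval x₀ f ≠ 0 := by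
    intro h
    rw [h, mul_zero] at hP
    exact hy (pow_eq_zero_iff hℓ.ne_zero |>.1 hP)
  have hf : f ≠ 0 := by
    rintro rfl
    exact hfx eval_zero
  obtain ⟨x, y, hx, hxy, hxV⟩ := laurent_ptL hℓ.pos hP hy
  let E := IntermediateField.adjoin k {x, y}
  have hxE : x ∈ E := IntermediateField.subset_adjoin _ _ (by simp)
  have hyE : y ∈ E := IntermediateField.subset_adjoin _ _ (by simp)
  have hcoe : ∀ p : k[X], ((aeval (⟨x, hxE⟩ : E) p : E) : LaurentSeries k) = aeval x p := fun p =>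
    (aeval_algebraMap_apply (LaurentSeries k) (⟨x, hxE⟩ : E) p).symm
  have hx' : Transcendental k (⟨x, hxE⟩ : E) := fun halg =>
    hx (halg.algebraMap (A := LaurentSeries k))
  have hxy' : (⟨y, hyE⟩ : E) ^ ℓ = algebraMap k E c * aeval (⟨x, hxE⟩ : E) f := by
    apply Subtype.ext
    show y ^ ℓ = algebraMap k (LaurentSeries k) c * ((aeval (⟨x, hxE⟩ : E) f : E) :
      LaurentSeries k)
    rw [hcoe, hxy]
  refine onCf_of hfx (pt_genL (K := E) hℓ hμ
      ((pvr k).comap (algebraMap E (LaurentSeries k))) (by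
        intro c
        rw [ValuationSubring.mem_comap, ← IsScalarTower.algebraMap_apply k E (LaurentSeries k)]
        exact Pool.Agent.Helper88.HG.pvr_const k c) (by
        intro z hz
        rw [ValuationSubring.mem_comap] at hz
        obtain ⟨c, hc⟩ := Pool.Agent.Helper88.HG.pvr_res k _ hz
        refine ⟨c, ?_⟩
        rw [← ValuationSubring.mem_nonunits_iff, ValuationSubring.mem_nonunits_iff_or] at hc ⊢
        rcases hc with hc | hc
        · left
          apply Subtype.ext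
          exact hc
        · right
          rw [ValuationSubring.mem_comap, map_inv₀]
          exact hc) hf hc hx' hxy' (by
        intro s
        by_contra hs
        push Not at hs
        exact hO ⟨E, inferInstance, inferInstance, ⟨x, hxE⟩, ⟨y, hyE⟩, hx', hxy', s,
          fun hn => hs.1 hn, fun α hα => hs.2 α hα⟩)
      (x₀ := x₀) hfx (by
        rw [← ValuationSubring.mem_nonunits_iff, ValuationSubring.mem_nonunits_iff_or]
        right
        rw [ValuationSubring.mem_comap, map_inv₀]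
        exact hxV))

/-- for almost all `c` all `k`-points come from the fixed curves -/
theorem rare_ptsL {ℓ : ℕ} (hℓ : ℓ.Prime) (hμ : HasMu k ℓ) {f : k[X]}
    (hR : Pool.Agent.PD.Rare ℓ (fun c : k => OthL f ℓ c)) :
    Pool.Agent.PD.Rare ℓ (fun c : k => ∃ x₀ y₀ : k, y₀ ^ ℓ = c * eval x₀ f ∧ y₀ ≠ 0 ∧
      ¬ OnCfL ℓ f x₀) := by
  intro ε hε
  filter_upwards [hR ε hε] with X hX
  intro T hT hTc
  refine hX T hT fun c hc => ?_
  obtain ⟨h1, h2, x₀, y₀, h3, h5, h4⟩ := hTc c hc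
  refine ⟨h1, h2, ?_⟩
  by_contra hO
  exact h4 (pt_OnL hℓ hμ h1 hO h3 h5)

/-- if the fixed curves have finitely many `k`-points then almost no `c` has a `k`-point with
`y₀ ≠ 0` -/
theorem rare_anyL {ℓ : ℕ} (hℓ : ℓ.Prime) (hμ : HasMu k ℓ) {f : k[X]}
    (hR : Pool.Agent.PD.Rare ℓ (fun c : k => OthL f ℓ c))
    (hF : {x₀ : k | OnCfL ℓ f x₀}.Finite) :
    Pool.Agent.PD.Rare ℓ (fun c : k => ∃ x₀ y₀ : k, y₀ ^ ℓ = c * eval x₀ f ∧ y₀ ≠ 0) := by
  classical
  intro ε hε
  obtain ⟨M, hM⟩ := exists_nat_gt ((hF.toFinset.card : ℝ) / (ε / 2))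
  filter_upwards [rare_ptsL hℓ hμ hR (ε / 2) (by positivity), eventually_ge_atTop M,
    eventually_ge_atTop 3] with X hX hXM hX3
  intro T hT hTc
  obtain ⟨T1, hT1⟩ : ∃ T1, T1 = T.filter (fun c => ∃ x₀ y₀ : k, y₀ ^ ℓ = c * eval x₀ f ∧ y₀ ≠ 0 ∧
    ¬ OnCfL ℓ f x₀) := ⟨_, rfl⟩
  obtain ⟨T2, hT2⟩ : ∃ T2, T2 = T.filter (fun c => ¬ ∃ x₀ y₀ : k, y₀ ^ ℓ = c * eval x₀ f ∧
    y₀ ≠ 0 ∧ ¬ OnCfL ℓ f x₀) := ⟨_, rfl⟩
  have hcard : T.card = T1.card + T2.card := by
    rw [hT1, hT2, Finset.card_filter_add_card_filter_not]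
  have h1 : (T1.card : ℝ) ≤ ε / 2 * (X * Real.log X ^ (((ℓ - 1 : ℕ) : ℝ) - 1)) := by
    refine hX T1 (fun c hc c' hc' => hT c ?_ c' ?_) fun c hc => ?_
    · rw [hT1] at hc
      exact (Finset.mem_filter.1 hc).1
    · rw [hT1] at hc'
      exact (Finset.mem_filter.1 hc').1
    · rw [hT1] at hc
      obtain ⟨g1, g2⟩ := Finset.mem_filter.1 hc
      exact ⟨(hTc c g1).1, (hTc c g1).2.1, g2⟩
  have h2 : T2.card ≤ hF.toFinset.card := by
    have hch : ∀ c : k, ∃ x₀ : k, c ∈ T2 → OnCfL ℓ f x₀ ∧ ∃ y₀ : k, y₀ ≠ 0 ∧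
        y₀ ^ ℓ = c * eval x₀ f := by
      intro c
      by_cases hc : c ∈ T2
      · rw [hT2] at hc
        obtain ⟨g1, g2⟩ := Finset.mem_filter.1 hc
        obtain ⟨g3, _, x₀, y₀, g4, g5⟩ := hTc c g1
        refine ⟨x₀, fun _ => ⟨?_, y₀, g5, g4⟩⟩
        by_contra h
        exact g2 ⟨x₀, y₀, g4, g5, h⟩
      · exact ⟨0, fun h => absurd h hc⟩
    choose ξ hξ using hch
    refine Finset.card_le_card_of_injOn ξ ?_ ?_
    · intro c hc
      rw [Finset.mem_coe, Set.Finite.mem_toFinset]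
      exact (hξ c (Finset.mem_coe.1 hc)).1
    · intro c hc c' hc' h
      obtain ⟨_, y₁, g1, g2⟩ := hξ c (Finset.mem_coe.1 hc)
      obtain ⟨_, y₂, g3, g4⟩ := hξ c' (Finset.mem_coe.1 hc')
      have hcT : c ∈ T := by
        have := Finset.mem_coe.1 hc
        rw [hT2] at this
        exact (Finset.mem_filter.1 this).1
      have hcT' : c' ∈ T := by
        have := Finset.mem_coe.1 hc'
        rw [hT2] at this
        exact (Finset.mem_filter.1 this).1
      refine hT c hcT c' hcT' ⟨y₁ / y₂, ?_⟩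
      rw [h] at g2
      have g5 : eval (ξ c') f ≠ 0 := by
        intro h0
        rw [h0, mul_zero] at g4
        exact g3 (pow_eq_zero_iff hℓ.ne_zero |>.1 g4)
      rw [div_pow, g2, g4]
      have hc'0 : c' ≠ 0 := (hTc c' hcT').1
      field_simp
  have hlog : 1 ≤ Real.log X ^ (((ℓ - 1 : ℕ) : ℝ) - 1) := by
    refine Real.one_le_rpow ?_ ?_
    · rw [Real.le_log_iff_exp_le (by positivity)]
      have h3 : Real.exp 1 < 2.7182818286 := Real.exp_one_lt_d9
      have h4 : (3 : ℝ) ≤ X := by exact_mod_cast hX3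
      linarith
    · have h3 : 1 ≤ ℓ - 1 := by
        have := hℓ.two_le
        omega
      have h4 : (1 : ℝ) ≤ ((ℓ - 1 : ℕ) : ℝ) := by exact_mod_cast h3
      linarith
  have hX' : (hF.toFinset.card : ℝ) ≤ ε / 2 * (X * Real.log X ^ (((ℓ - 1 : ℕ) : ℝ) - 1)) := by
    rw [div_lt_iff₀ (by positivity)] at hM
    have h3 : (M : ℝ) ≤ X := by exact_mod_cast hXM
    have h4 : (X : ℝ) ≤ X * Real.log X ^ (((ℓ - 1 : ℕ) : ℝ) - 1) :=
      le_mul_of_one_le_right (Nat.cast_nonneg X) hlog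
    nlinarith
  have h3 : (T2.card : ℝ) ≤ hF.toFinset.card := by exact_mod_cast h2
  rw [hcard]
  push_cast at hX' ⊢
  linarith

end final

end

end Pool.Agent.PD37
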