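import Pool.Agent.Helper37.PD.PtsO

/-!
# Project PD: the levels are unramified, and the sections of the rational branch points
-/

set_option autoImplicit false
set_option linter.unusedSectionVars false

namespace Pool.Agent.PD37

open VC Polynomial NumberField Filter Topology Pool.Agent.Helper91.Sect
open Pool.Agent.TW37
open Pool.Agent.TW (Lev Xbar)
open Pool.Agent.PDL (IsBr KB1 KB2 IsRt1 Lev1 AgrAt OthL BrP dif)
open Pool.Agent.Helper88.HG (pvr tt)

noncomputable section

section K

variable {k K : Type} [Field k] [CharZero k] [Field K] [Algebra k K]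

/-- A root of a function with divisible divisor is unramified. -/
theorem root_kur (F : Subfield (AlgebraicClosure K)) (hF : ∀ z ∈ F, z ∈ Kur k K) {m : ℕ}
    (hm : 0 < m) {w : AlgebraicClosure K} (u : F) (hu : (u : AlgebraicClosure K) = w ^ m)
    (h : ∀ P : ValuationSubring F, (∀ z : F, IsAlgebraic k (z : AlgebraicClosure K) → z ∈ P) →
      ∃ z : F, P.valuation u = P.valuation z ^ m) : w ∈ Kur k K := by
  intro W hW σ hσ
  by_cases hw0 : w = 0
  · rw [hw0, map_zero]
  have hu0 : u ≠ 0 := by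
    intro h0
    rw [h0] at hu
    exact pow_ne_zero m hw0 hu.symm
  obtain ⟨P, hP⟩ : ∃ P : ValuationSubring F, P = W.comap F.subtype := ⟨_, rfl⟩
  have hPm : ∀ z : F, z ∈ P ↔ (z : AlgebraicClosure K) ∈ W := fun z => by
    rw [hP, ValuationSubring.mem_comap]
    rfl
  obtain ⟨z, hz⟩ := h P (fun z hz => (hPm z).2 (const_mem hW hz))
  have hz0 : z ≠ 0 := by
    rintro rfl
    rw [map_zero, zero_pow hm.ne', Valuation.zero_iff] at hz
    exact hu0 hz
  have h1 : P.valuation (u / z ^ m) = 1 := by
    rw [map_div₀, map_pow, hz, div_self]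
    exact pow_ne_zero _ ((Valuation.ne_zero_iff _).2 hz0)
  have hzC : (z : AlgebraicClosure K) ≠ 0 := fun h0 => hz0 (Subtype.ext h0)
  obtain ⟨η, hη⟩ : ∃ η : AlgebraicClosure K, η = w / z := ⟨_, rfl⟩
  have hηm : ((u / z ^ m : F) : AlgebraicClosure K) = η ^ m := by
    rw [hη, div_pow, ← hu]
    rfl
  have h2 : W.valuation (η ^ m) ≤ 1 := by
    rw [← hηm]
    exact (W.valuation_le_one_iff _).2 ((hPm _).1 ((P.valuation_le_one_iff _).1 h1.le))
  have h3 : W.valuation (η ^ m)⁻¹ ≤ 1 := by
    rw [← hηm]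
    refine (W.valuation_le_one_iff _).2 ((hPm (u / z ^ m)⁻¹).1 ((P.valuation_le_one_iff _).1 ?_))
    rw [map_inv₀, h1, inv_one]
  have hη0 : η ≠ 0 := by
    rw [hη]
    exact div_ne_zero hw0 hzC
  have h4 : W.valuation η ^ m = 1 := by
    rw [← map_pow]
    refine le_antisymm h2 ?_
    rw [map_inv₀] at h3
    exact (inv_le_one₀ (zero_lt_iff.2 ((Valuation.ne_zero_iff _).2 (pow_ne_zero m hη0)))).1 h3
  have h5 : W.valuation η = 1 := by
    rcases lt_trichotomy (W.valuation η) 1 with h6 | h6 | h6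
    · exact absurd h4 (pow_lt_one₀ zero_le h6 hm.ne').ne
    · exact h6
    · exact absurd h4 (one_lt_pow₀ h6 hm.ne').ne'
  have hσz : σ (z : AlgebraicClosure K) = z := hF _ z.2 W hW σ hσ
  have hσu : σ (u : AlgebraicClosure K) = u := hF _ u.2 W hW σ hσ
  have hσw : (σ w / w) ^ m = 1 := by
    rw [div_pow, ← map_pow, ← hu, hσu, div_self]
    exact fun h0 => hu0 (Subtype.ext h0)
  have hζalg : IsAlgebraic k (σ w / w) := by
    refine ⟨X ^ m - 1, (monic_X_pow_sub_C (1 : k) hm.ne').ne_zero, ?_⟩
    rw [map_sub, map_pow, aeval_X, map_one, hσw, sub_self]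
  have h6 : σ η - η = (σ w / w - 1) * η := by
    rw [hη, map_div₀, hσz]
    field_simp
  have h7 : W.valuation (σ w / w - 1) < 1 := by
    have h8 := hσ.2 η ((W.valuation_le_one_iff _).1 h5.le)
    rw [h6, map_mul, h5, mul_one] at h8
    exact h8
  by_contra hne
  have h8 : σ w / w - 1 ≠ 0 := by
    intro h9
    apply hne
    rw [sub_eq_zero, div_eq_one_iff_eq hw0] at h9
    exact h9
  have h9 := const_val_eq_one hW (hζalg.sub isAlgebraic_one) h8
  rw [h9] at h7
  exact lt_irrefl _ h7

theorem xbar_kur (x y : K) : ∀ z ∈ Xbar k x y, z ∈ Kur k K := by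
  have h1 : Xbar k x y ≤ (Kur k K).toSubfield := by
    refine Subfield.closure_le.2 ?_
    rintro z (hz | rfl | rfl)
    · exact kbar_mem_Kur (⟨z, mem_algebraicClosure_iff.2 hz⟩ : kbar k K)
    · exact (Kur k K).algebraMap_mem x
    · exact (Kur k K).algebraMap_mem y
  exact fun z hz => h1 hz

/-- The levels are unramified. -/
theorem lev_kur (x y : K) {m : ℕ} (hm : 0 < m) : ∀ w ∈ Lev k x y m, w ∈ Kur k K := by
  have h1 : Lev k x y m ≤ (Kur k K).toSubfield := by
    refine Subfield.closure_le.2 ?_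
    rintro z ((hz | rfl | rfl) | ⟨u, hu, h⟩)
    · exact kbar_mem_Kur (⟨z, mem_algebraicClosure_iff.2 hz⟩ : kbar k K)
    · exact (Kur k K).algebraMap_mem x
    · exact (Kur k K).algebraMap_mem y
    · exact root_kur (Xbar k x y) (xbar_kur x y) hm u hu h
  exact fun z hz => h1 hz

theorem lev1_kur (x y : K) {ℓ : ℕ} (hℓ : 0 < ℓ) : ∀ w ∈ Lev1 k x y ℓ, w ∈ Kur k K := by
  have h1 : Lev1 k x y ℓ ≤ (Kur k K).toSubfield := by
    refine Subfield.closure_le.2 ?_
    rintro z ((hz | rfl | rfl) | ⟨u, hu, -, h⟩)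
    · exact kbar_mem_Kur (⟨z, mem_algebraicClosure_iff.2 hz⟩ : kbar k K)
    · exact (Kur k K).algebraMap_mem x
    · exact (Kur k K).algebraMap_mem y
    · exact root_kur (Xbar k x y) (xbar_kur x y) hℓ u hu h
  exact fun z hz => h1 hz

/-- a function with a pole at the point `a` of the line -/
def polF (x : K) : Option k → K
  | none => x
  | some a => (x - algebraMap k K a)⁻¹

end K

/-- The rational branch points have sections: for every `c` there is a section `s` of `k(x, y)`,
`y ^ ℓ = c f(x)`, and a place `W` above the branch point such that `s` fixes the place of `Kur` below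
`W`; in particular on all levels. -/
theorem exists_agrL {k : Type} [Field k] [CharZero k] {ℓ : ℕ} (hℓ : ℓ.Prime) {f : k[X]}
    (hf : f ≠ 0) {c : k} (hc : c ≠ 0) (a : Option k)
    (ha : BrP ℓ f (a.map (algebraMap k (AlgebraicClosure k)))) :
    ∃ (K : Type) (_ : Field K) (_ : Algebra k K) (x y : K), Transcendental k x ∧
      y ^ ℓ = algebraMap k K c * aeval x f ∧ IntermediateField.adjoin k {x, y} = ⊤ ∧
      ∃ (s : GaloisSection k K) (W : ValuationSubring (AlgebraicClosure K)),
        (∀ z, IsAlgebraic k z → z ∈ W) ∧ algebraMap K (AlgebraicClosure K) (polF x a) ∉ W ∧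
        (∀ (z : Kur k K) (g : Gk k K), (z : AlgebraicClosure K) ∈ W ↔
          (s.toHom g z : AlgebraicClosure K) ∈ W) ∧
        (∀ m : ℕ, 0 < m → ∀ w ∈ Lev k x y m, ∃ hw : w ∈ Kur k K, ∀ g : Gk k K,
          (w ∈ W ↔ (s.toHom g ⟨w, hw⟩ : AlgebraicClosure K) ∈ W)) ∧
        AgrAt s x y ℓ (polF x a) := by
  obtain ⟨x, y, hx, hy, hxV⟩ : ∃ x y : LaurentSeries k, Transcendental k x ∧
      y ^ ℓ = algebraMap k (LaurentSeries k) c * aeval x f ∧ polF x a ∉ pvr k := by
    rcases a with _ | a
    · exact laurent_inf hf hℓ hc ha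
    · refine laurent_a hf hℓ hc ?_
      have ha' : ¬ ℓ ∣ (f.map (algebraMap k (AlgebraicClosure k))).rootMultiplicity
        (algebraMap k (AlgebraicClosure k) a) := ha
      rwa [← eq_rootMultiplicity_map (algebraMap k (AlgebraicClosure k)).injective] at ha'
  let E := IntermediateField.adjoin k {x, y}
  have hxE : x ∈ E := IntermediateField.subset_adjoin _ _ (by simp)
  have hyE : y ∈ E := IntermediateField.subset_adjoin _ _ (by simp)
  have hcoe : ∀ p : k[X], ((aeval (⟨x, hxE⟩ : E) p : E) : LaurentSeries k) = aeval x p := fun p =>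
    (aeval_algebraMap_apply (LaurentSeries k) (⟨x, hxE⟩ : E) p).symm
  have hx' : Transcendental k (⟨x, hxE⟩ : E) := fun halg =>
    hx (halg.algebraMap (A := LaurentSeries k))
  have hxy' : (⟨y, hyE⟩ : E) ^ ℓ = algebraMap k E c * aeval (⟨x, hxE⟩ : E) f := by
    apply Subtype.ext
    show y ^ ℓ = algebraMap k (LaurentSeries k) c * ((aeval (⟨x, hxE⟩ : E) f : E) :
      LaurentSeries k)
    rw [hcoe, hy]
  refine ⟨E, inferInstance, inferInstance, ⟨x, hxE⟩, ⟨y, hyE⟩, hx', hxy', ?_, ?_⟩
  · have h2 : IntermediateField.lift (IntermediateField.adjoin k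
        {(⟨x, hxE⟩ : E), (⟨y, hyE⟩ : E)}) = IntermediateField.lift (⊤ : IntermediateField k E) := by
      rw [IntermediateField.lift_adjoin, IntermediateField.lift_top]
      show IntermediateField.adjoin k ((fun z : E => (z : LaurentSeries k)) ''
        {⟨x, hxE⟩, ⟨y, hyE⟩}) = E
      rw [Set.image_pair]
    exact IntermediateField.lift_injective E h2
  · obtain ⟨s, W, hW, hz, hσ⟩ := Pool.Agent.HG.section_of_place'
      ((pvr k).comap (algebraMap E (LaurentSeries k))) (by
        intro c
        rw [ValuationSubring.mem_comap, ← IsScalarTower.algebraMap_apply k E (LaurentSeries k)]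
        exact Pool.Agent.Helper88.HG.pvr_const k c) (by
        intro z hz
        rw [ValuationSubring.mem_comap] at hz
        obtain ⟨c, hc⟩ := Pool.Agent.Helper88.HG.pvr_res k _ hz
        refine ⟨c, ?_⟩
        rw [← ValuationSubring.mem_nonunits_iff, ValuationSubring.mem_nonunits_iff_or] at hc ⊢
        rcases hc with hc | hc
        · left
          apply Subtype.ext
          exact hc
        · right
          rw [ValuationSubring.mem_comap, map_inv₀]
          exact hc)
    have hWc : ∀ z : AlgebraicClosure E, IsAlgebraic k z → z ∈ W := fun z hz => const_mem hW hz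
    have hnot : algebraMap E (AlgebraicClosure E) (polF (⟨x, hxE⟩ : E) a) ∉ W := by
      have hcoe2 : ((polF (⟨x, hxE⟩ : E) a : E) : LaurentSeries k) = polF x a := by
        rcases a with _ | a <;> rfl
      have h1 := hz (polF (⟨x, hxE⟩ : E) a)⁻¹ (by
        rw [← ValuationSubring.mem_nonunits_iff, ValuationSubring.mem_nonunits_iff_or]
        right
        rw [inv_inv, ValuationSubring.mem_comap]
        show ((polF (⟨x, hxE⟩ : E) a : E) : LaurentSeries k) ∉ pvr k
        rw [hcoe2]
        exact hxV)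
      rw [← ValuationSubring.mem_nonunits_iff, ValuationSubring.mem_nonunits_iff_or] at h1
      rcases h1 with h1 | h1
      · rw [_root_.map_eq_zero, inv_eq_zero] at h1
        rw [h1] at hcoe2
        intro _
        exact hxV (by rw [← hcoe2]; exact zero_mem _)
      · rwa [map_inv₀, inv_inv] at h1
    have hfix : ∀ (z : Kur k E) (g : Gk k E), (z : AlgebraicClosure E) ∈ W ↔
        (s.toHom g z : AlgebraicClosure E) ∈ W := by
      intro z g
      obtain ⟨τ, hτ1, hτ2⟩ := hσ g
      rw [hτ2, hτ1]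
    exact ⟨s, W, hWc, hnot, hfix,
      fun m hm w hw => ⟨lev_kur _ _ hm w hw, fun g => hfix ⟨w, lev_kur _ _ hm w hw⟩ g⟩,
      W, hWc, hnot,
      fun w hw => ⟨lev1_kur _ _ hℓ.pos w hw, fun g => hfix ⟨w, lev1_kur _ _ hℓ.pos w hw⟩ g⟩⟩

end

end Pool.Agent.PD37
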